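import Pool.Agent.Q233.EP.Ineq

/-!
# The second derivative of the mutual information at a critical point
-/

set_option autoImplicit false

namespace Pool.Agent.Q233.MI

/-- the inverse hyperbolic tangent -/
noncomputable def At (u : ℝ) : ℝ := Real.log ((1 + u) / (1 - u)) / 2

/-- the case `t ≤ s` -/
lemma bracket_lt {a b s t : ℝ} (ha : 0 < a) (hb : 0 < b) (hab : a + b = 1) (ht : 0 < t)
    (hst : t ≤ s) {w v x y p0 p1 : ℝ} (hw : w = Real.exp (2 * s)) (hv : v = Real.exp (2 * t))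
    (hx : x = (a - b * w) / (a + b * w)) (hy : y = (a * v - b) / (a * v + b))
    (hp0 : p0 = (v - 1) * (a + b * w) / (v * w - 1))
    (hp1 : p1 = (w - 1) * (a * v + b) / (v * w - 1)) :
    t ^ 2 / (p0 * (1 - x ^ 2)) + s ^ 2 / (p1 * (1 - y ^ 2)) - (s + t) ^ 2 / (4 * a * b) <
      t ^ 2 * (p1 * y * t - p0 * x * s) / (p0 ^ 2 * (1 - x ^ 2)) := by
  have h1 := EP.M1_pos ht hst
  have h2 := EP.M2_pos ht hst
  rw [← hw, ← hv] at h1 h2
  have hs : 0 < s := lt_of_lt_of_le ht hst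
  have hw1 : 1 < w := by rw [hw]; exact Real.one_lt_exp_iff.2 (by linarith)
  have hv1 : 1 < v := by rw [hv]; exact Real.one_lt_exp_iff.2 (by linarith)
  have hb' : b = 1 - a := by linarith
  have hw0 : 0 < w := by linarith
  have hv0 : 0 < v := by linarith
  have hvw : 0 < v * w - 1 := by nlinarith
  have d1 : 0 < a + b * w := by positivity
  have d2 : 0 < a * v + b := by positivity
  have ex : 1 - x ^ 2 = 4 * a * b * w / (a + b * w) ^ 2 := by
    rw [hx, div_pow]
    field_simp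
    ring
  have ey : 1 - y ^ 2 = 4 * a * b * v / (a * v + b) ^ 2 := by
    rw [hy, div_pow]
    field_simp
    ring
  have hw1' : 0 < w - 1 := by linarith
  have hv1' : 0 < v - 1 := by linarith
  have e1 : p0 * (1 - x ^ 2) = (v - 1) * (4 * a * b * w) / ((v * w - 1) * (a + b * w)) := by
    rw [ex, hp0]
    field_simp
  have e2 : p1 * (1 - y ^ 2) = (w - 1) * (4 * a * b * v) / ((v * w - 1) * (a * v + b)) := by
    rw [ey, hp1]
    field_simp
  have e3 : p0 ^ 2 * (1 - x ^ 2) = (v - 1) ^ 2 * (4 * a * b * w) / (v * w - 1) ^ 2 := by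
    rw [ex, hp0]
    field_simp
  have e4 : p1 * y = (w - 1) * (a * v - b) / (v * w - 1) := by
    rw [hy, hp1]
    field_simp
  have e5 : p0 * x = (v - 1) * (a - b * w) / (v * w - 1) := by
    rw [hx, hp0]
    field_simp
  rw [e1, e2, e3, e4, e5, ← sub_pos]
  have key : t ^ 2 * ((w - 1) * (a * v - b) / (v * w - 1) * t -
      (v - 1) * (a - b * w) / (v * w - 1) * s) /
      ((v - 1) ^ 2 * (4 * a * b * w) / (v * w - 1) ^ 2) -
      (t ^ 2 / ((v - 1) * (4 * a * b * w) / ((v * w - 1) * (a + b * w))) +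
        s ^ 2 / ((w - 1) * (4 * a * b * v) / ((v * w - 1) * (a * v + b))) -
        (s + t) ^ 2 / (4 * a * b)) =
      (a * v * ((s + t) ^ 2 * (v - 1) ^ 2 * (w * (w - 1)) - (v * w - 1) *
        (t ^ 2 * (w - 1) * ((1 + s) * (v - 1) - t * v * (w - 1)) + s ^ 2 * w * (v - 1) ^ 2)) +
      b * ((s + t) ^ 2 * v * (v - 1) ^ 2 * (w * (w - 1)) - (v * w - 1) *
        (t ^ 2 * v * (w - 1) * ((1 - s) * (v - 1) * w + t * (w - 1)) +
        s ^ 2 * (v - 1) ^ 2 * w))) / (4 * a * b * w * v * (v - 1) ^ 2 * (w - 1)) := by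
    rw [hb']
    have hb'' : (1 - a) ≠ 0 := by rw [← hb']; exact hb.ne'
    field_simp
    ring
  rw [key]
  have := mul_pos (mul_pos ha hv0) h2
  have := mul_pos hb h1
  positivity

lemma R_pos {a b s t : ℝ} (ha : 0 < a) (hb : 0 < b) (ht : 0 < t) (hs : 0 < s)
    {w v : ℝ} (hw : w = Real.exp (2 * s)) (hv : v = Real.exp (2 * t)) :
    0 < t * (w - 1) * (a * v - b) - s * (v - 1) * (a - b * w) := by
  have hw1 : 1 < w := by rw [hw]; exact Real.one_lt_exp_iff.2 (by linarith)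
  have hv1 : 1 < v := by rw [hv]; exact Real.one_lt_exp_iff.2 (by linarith)
  have h1 : 2 * s < w - 1 := by
    have := Real.add_one_lt_exp (x := 2 * s) (by positivity)
    rw [hw]; linarith
  have h2 : 2 * t < v - 1 := by
    have := Real.add_one_lt_exp (x := 2 * t) (by positivity)
    rw [hv]; linarith
  have h3 : w - 1 < 2 * s * w := by
    have := Real.add_one_lt_exp (x := -(2 * s)) (ne_of_lt (by linarith))
    rw [Real.exp_neg, ← hw] at this
    have hw0 : 0 < w := by linarith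
    have h4 := mul_lt_mul_of_pos_right this hw0
    rw [inv_mul_cancel₀ hw0.ne'] at h4
    linarith
  have h4 : v - 1 < 2 * t * v := by
    have := Real.add_one_lt_exp (x := -(2 * t)) (ne_of_lt (by linarith))
    rw [Real.exp_neg, ← hv] at this
    have hv0 : 0 < v := by linarith
    have h4 := mul_lt_mul_of_pos_right this hv0
    rw [inv_mul_cancel₀ hv0.ne'] at h4
    linarith
  have k1 : 0 < t * v * (w - 1) - s * (v - 1) := by
    have a1 : s * (v - 1) < s * (2 * t * v) := mul_lt_mul_of_pos_left h4 hs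
    have a2 : t * v * (2 * s) < t * v * (w - 1) := mul_lt_mul_of_pos_left h1 (by positivity)
    linarith
  have k2 : 0 < s * w * (v - 1) - t * (w - 1) := by
    have a1 : t * (w - 1) < t * (2 * s * w) := mul_lt_mul_of_pos_left h3 ht
    have a2 : s * w * (2 * t) < s * w * (v - 1) := mul_lt_mul_of_pos_left h2 (by positivity)
    linarith
  have := mul_pos ha k1
  have := mul_pos hb k2
  linarith


lemma At_neg (u : ℝ) : At (-u) = -At u := by
  unfold At
  rw [show (1 + -u) / (1 - -u) = ((1 + u) / (1 - u))⁻¹ by rw [inv_div]; ring_nf, Real.log_inv]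
  ring

lemma exp_At {u : ℝ} (h1 : -1 < u) (h2 : u < 1) : Real.exp (2 * At u) = (1 + u) / (1 - u) := by
  unfold At
  rw [mul_div_cancel₀ _ (two_ne_zero' ℝ), Real.exp_log]
  exact div_pos (by linarith) (by linarith)

lemma At_lt {u v : ℝ} (h1 : -1 < u) (h2 : u < v) (h3 : v < 1) : At u < At v := by
  have e : Real.exp (2 * At u) < Real.exp (2 * At v) := by
    rw [exp_At h1 (by linarith), exp_At (by linarith) h3, div_lt_div_iff₀ (by linarith)
      (by linarith)]
    nlinarith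
  have := Real.exp_lt_exp.1 e
  linarith

lemma crit_case {x y p0 p1 z x' y' : ℝ} (hx : -1 < x) (hxy : x < y) (hy : y < 1) (hp0 : 0 < p0)
    (hp1 : 0 < p1) (hp : p0 + p1 = 1) (hz : z = p0 * x + p1 * y) (hx' : x' ^ 2 ≤ 1 - x ^ 2)
    (hc : p0 * x' * At x + p1 * y' * At y - (p0 * x' + p1 * y') * At z = 0)
    (hst : At y - At z ≤ At z - At x) :
    p0 * x' ^ 2 / (1 - x ^ 2) + p1 * y' ^ 2 / (1 - y ^ 2) -
      (p0 * x' + p1 * y') ^ 2 / (1 - z ^ 2) - (p0 * x * At x + p1 * y * At y - z * At z) < 0 := by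
  have hzx : z - x = p1 * (y - x) := by rw [hz]; linear_combination x * hp
  have hyz : y - z = p0 * (y - x) := by rw [hz]; linear_combination (-y) * hp
  have hyx : 0 < y - x := by linarith
  have hxz : x < z := by nlinarith
  have hzy : z < y := by nlinarith
  obtain ⟨s, hs⟩ : ∃ s, s = At z - At x := ⟨_, rfl⟩
  obtain ⟨t, ht⟩ : ∃ t, t = At y - At z := ⟨_, rfl⟩
  rw [← hs, ← ht] at hst
  have hs0 : 0 < s := by
    have := At_lt hx hxz (by linarith)
    linarith
  have ht0 : 0 < t := by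
    have := At_lt (by linarith) hzy hy
    linarith
  obtain ⟨w, hw⟩ : ∃ w, w = Real.exp (2 * s) := ⟨_, rfl⟩
  obtain ⟨v, hv⟩ : ∃ v, v = Real.exp (2 * t) := ⟨_, rfl⟩
  have n1 : 0 < 1 + x := by linarith
  have n2 : 0 < 1 - x := by linarith
  have n3 : 0 < 1 + y := by linarith
  have n4 : 0 < 1 - y := by linarith
  have n5 : 0 < 1 + z := by linarith
  have n6 : 0 < 1 - z := by linarith
  have hw2 : w = ((1 + z) * (1 - x)) / ((1 - z) * (1 + x)) := by
    rw [hw, hs, mul_sub, Real.exp_sub, exp_At (by linarith) (by linarith),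
      exp_At hx (by linarith)]
    field_simp
  have hv2 : v = ((1 + y) * (1 - z)) / ((1 - y) * (1 + z)) := by
    rw [hv, ht, mul_sub, Real.exp_sub, exp_At (by linarith) (by linarith),
      exp_At (by linarith) (by linarith)]
    field_simp
  have ha : 0 < (1 + z) / 2 := by linarith
  have hb : 0 < (1 - z) / 2 := by linarith
  have ex : x = ((1 + z) / 2 - (1 - z) / 2 * w) / ((1 + z) / 2 + (1 - z) / 2 * w) := by
    have e1 : (1 + z) / 2 - (1 - z) / 2 * w = (1 + z) * x / (1 + x) := by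
      rw [hw2]; field_simp; ring
    have e2 : (1 + z) / 2 + (1 - z) / 2 * w = (1 + z) / (1 + x) := by
      rw [hw2]; field_simp; ring
    rw [e1, e2]
    field_simp
  have ey : y = ((1 + z) / 2 * v - (1 - z) / 2) / ((1 + z) / 2 * v + (1 - z) / 2) := by
    have e1 : (1 + z) / 2 * v - (1 - z) / 2 = (1 - z) * y / (1 - y) := by
      rw [hv2]; field_simp; ring
    have e2 : (1 + z) / 2 * v + (1 - z) / 2 = (1 - z) / (1 - y) := by
      rw [hv2]; field_simp; ring
    rw [e1, e2]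
    field_simp
  have evw : v * w - 1 = 2 * (y - x) / ((1 - y) * (1 + x)) := by
    rw [hv2, hw2]; field_simp; ring
  have ep0 : p0 = (v - 1) * ((1 + z) / 2 + (1 - z) / 2 * w) / (v * w - 1) := by
    have e2 : (1 + z) / 2 + (1 - z) / 2 * w = (1 + z) / (1 + x) := by
      rw [hw2]; field_simp; ring
    have e3 : v - 1 = 2 * (y - z) / ((1 - y) * (1 + z)) := by
      rw [hv2]; field_simp; ring
    rw [e2, e3, evw, hyz]
    field_simp
  have ep1 : p1 = (w - 1) * ((1 + z) / 2 * v + (1 - z) / 2) / (v * w - 1) := by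
    have e2 : (1 + z) / 2 * v + (1 - z) / 2 = (1 - z) / (1 - y) := by
      rw [hv2]; field_simp; ring
    have e3 : w - 1 = 2 * (z - x) / ((1 - z) * (1 + x)) := by
      rw [hw2]; field_simp; ring
    rw [e2, e3, evw, hzx]
    field_simp
  have key := bracket_lt ha hb (by ring) ht0 hst hw hv ex ey ep0 ep1
  have hR := R_pos ha hb ht0 hs0 hw hv
  have hw1 : 1 < w := by rw [hw]; exact Real.one_lt_exp_iff.2 (by linarith)
  have hv1 : 1 < v := by rw [hv]; exact Real.one_lt_exp_iff.2 (by linarith)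
  have hvw : 0 < v * w - 1 := by nlinarith
  have hR2 : 0 < p1 * y * t - p0 * x * s := by
    have d1 : 0 < (1 + z) / 2 + (1 - z) / 2 * w := by positivity
    have d2 : 0 < (1 + z) / 2 * v + (1 - z) / 2 := by positivity
    have e4 : p1 * y = (w - 1) * ((1 + z) / 2 * v - (1 - z) / 2) / (v * w - 1) := by
      conv_lhs => rw [ep1, ey]
      field_simp
    have e5 : p0 * x = (v - 1) * ((1 + z) / 2 - (1 - z) / 2 * w) / (v * w - 1) := by
      conv_lhs => rw [ep0, ex]
      field_simp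
    rw [e4, e5]
    have : (w - 1) * ((1 + z) / 2 * v - (1 - z) / 2) / (v * w - 1) * t -
        (v - 1) * ((1 + z) / 2 - (1 - z) / 2 * w) / (v * w - 1) * s =
        (t * (w - 1) * ((1 + z) / 2 * v - (1 - z) / 2) -
          s * (v - 1) * ((1 + z) / 2 - (1 - z) / 2 * w)) / (v * w - 1) := by
      field_simp
    rw [this]
    exact div_pos hR hvw
  have hRe : p0 * x * At x + p1 * y * At y - z * At z = p1 * y * t - p0 * x * s := by
    rw [ht, hs, hz]; ring
  have hc3 : p1 * y' * t = p0 * x' * s := by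
    rw [ht, hs]; linear_combination hc
  have q1 : 0 < 1 - x ^ 2 := by nlinarith
  have q2 : 0 < 1 - y ^ 2 := by nlinarith
  have q3 : 0 < 1 - z ^ 2 := by nlinarith
  have q4 : 4 * ((1 + z) / 2) * ((1 - z) / 2) = 1 - z ^ 2 := by ring
  rw [q4] at key
  obtain ⟨κ, hκ⟩ : ∃ κ, κ = p0 * x' / t := ⟨_, rfl⟩
  have hx1 : x' = κ * t / p0 := by rw [hκ]; field_simp
  have hy1 : y' = κ * s / p1 := by
    rw [hκ]; field_simp; linear_combination hc3
  obtain ⟨Br, hBr⟩ : ∃ Br, Br = t ^ 2 / (p0 * (1 - x ^ 2)) + s ^ 2 / (p1 * (1 - y ^ 2)) -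
      (s + t) ^ 2 / (1 - z ^ 2) := ⟨_, rfl⟩
  rw [← hBr] at key
  have hJ : p0 * x' ^ 2 / (1 - x ^ 2) + p1 * y' ^ 2 / (1 - y ^ 2) -
      (p0 * x' + p1 * y') ^ 2 / (1 - z ^ 2) = κ ^ 2 * Br := by
    rw [hx1, hy1, hBr]
    field_simp
    ring
  rw [hJ, hRe]
  have hκ2 : κ ^ 2 ≤ p0 ^ 2 * (1 - x ^ 2) / t ^ 2 := by
    rw [hκ, div_pow, mul_pow]
    gcongr
  rcases le_or_gt Br 0 with h | h
  · have := mul_nonneg (sq_nonneg κ) (neg_nonneg.2 h)
    linarith
  · have h1 : κ ^ 2 * Br ≤ p0 ^ 2 * (1 - x ^ 2) / t ^ 2 * Br := by gcongr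
    have h2 : p0 ^ 2 * (1 - x ^ 2) / t ^ 2 * Br < p0 ^ 2 * (1 - x ^ 2) / t ^ 2 *
        (t ^ 2 * (p1 * y * t - p0 * x * s) / (p0 ^ 2 * (1 - x ^ 2))) :=
      mul_lt_mul_of_pos_left key (by positivity)
    have h3 : p0 ^ 2 * (1 - x ^ 2) / t ^ 2 *
        (t ^ 2 * (p1 * y * t - p0 * x * s) / (p0 ^ 2 * (1 - x ^ 2))) =
        p1 * y * t - p0 * x * s := by
      field_simp
    linarith

theorem crit_neg {x y p0 p1 z x' y' : ℝ} (hx : -1 < x) (hxy : x < y) (hy : y < 1) (hp0 : 0 < p0)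
    (hp1 : 0 < p1) (hp : p0 + p1 = 1) (hz : z = p0 * x + p1 * y) (hx' : x' ^ 2 ≤ 1 - x ^ 2)
    (hy' : y' ^ 2 ≤ 1 - y ^ 2)
    (hc : p0 * x' * At x + p1 * y' * At y - (p0 * x' + p1 * y') * At z = 0) :
    p0 * x' ^ 2 / (1 - x ^ 2) + p1 * y' ^ 2 / (1 - y ^ 2) -
      (p0 * x' + p1 * y') ^ 2 / (1 - z ^ 2) -
      (p0 * x * At x + p1 * y * At y - z * At z) < 0 := by
  rcases le_total (At y - At z) (At z - At x) with h | h
  · exact crit_case hx hxy hy hp0 hp1 hp hz hx' hc h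
  · have key := crit_case (x := -y) (y := -x) (p0 := p1) (p1 := p0) (z := -z) (x' := -y')
      (y' := -x') (by linarith) (by linarith) (by linarith) hp1 hp0 (by linarith)
      (by rw [hz]; ring) (by rw [neg_sq, neg_sq]; exact hy')
      (by rw [At_neg, At_neg, At_neg]; linear_combination hc)
      (by rw [At_neg, At_neg, At_neg]; linarith)
    rw [At_neg, At_neg, At_neg] at key
    refine lt_of_eq_of_lt ?_ key
    ring

end Pool.Agent.Q233.MI
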