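import Pool.Agent.Q233.MI.Theta

set_option autoImplicit false

open Filter Topology Set

namespace Pool.Agent.Q233.MI

noncomputable def J (c α β p0 p1 θ : ℝ) : ℝ :=
  p0 * eta (X c α θ) + p1 * eta (X c (-β) θ) - eta (X c (p0 * α - p1 * β) θ)

noncomputable def G (c α β p0 p1 θ : ℝ) : ℝ :=
  p0 * (X1 c α θ * At (X c α θ)) + p1 * (X1 c (-β) θ * At (X c (-β) θ)) -
    X1 c (p0 * α - p1 * β) θ * At (X c (p0 * α - p1 * β) θ)

lemma X_mix (c α β p0 p1 θ : ℝ) (hp : p0 + p1 = 1) :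
    X c (p0 * α - p1 * β) θ = p0 * X c α θ + p1 * X c (-β) θ := by
  unfold X
  linear_combination (-(c * Real.sin θ)) * hp

lemma X1_mix (c α β p0 p1 θ : ℝ) (hp : p0 + p1 = 1) :
    X1 c (p0 * α - p1 * β) θ = p0 * X1 c α θ + p1 * X1 c (-β) θ := by
  unfold X1
  linear_combination (-(c * Real.cos θ)) * hp

lemma J_neg (c α β p0 p1 θ : ℝ) : J c α β p0 p1 (-θ) = J c β α p1 p0 θ := by
  have h : ∀ a, X c a (-θ) = -X c (-a) θ := by
    intro a; unfold X; rw [Real.sin_neg, Real.cos_neg]; ring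
  unfold J
  rw [h, h, h, eta_neg, eta_neg, eta_neg, neg_neg, add_comm,
    show -(p0 * α - p1 * β) = p1 * β - p0 * α by ring]

lemma G_neg (c α β p0 p1 θ : ℝ) : G c α β p0 p1 (-θ) = -G c β α p1 p0 θ := by
  have h : ∀ a, X c a (-θ) = -X c (-a) θ := by
    intro a; unfold X; rw [Real.sin_neg, Real.cos_neg]; ring
  have h' : ∀ a, X1 c a (-θ) = X1 c (-a) θ := by
    intro a; unfold X1; rw [Real.sin_neg, Real.cos_neg]; ring
  unfold G
  rw [h, h, h, h', h', h', At_neg, At_neg, At_neg, neg_neg,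
    show -(p0 * α - p1 * β) = p1 * β - p0 * α by ring]
  ring

lemma mix_sq {c α β p0 p1 : ℝ} (hp0 : 0 < p0) (hp1 : 0 < p1) (hp : p0 + p1 = 1)
    (hα : c ^ 2 + α ^ 2 ≤ 1) (hβ : c ^ 2 + β ^ 2 ≤ 1) :
    c ^ 2 + (p0 * α - p1 * β) ^ 2 ≤ 1 := by
  have h : (p0 * α - p1 * β) ^ 2 = p0 * α ^ 2 + p1 * β ^ 2 - p0 * p1 * (α + β) ^ 2 := by
    have : p1 = 1 - p0 := by linarith
    rw [this]; ring
  have h1 := mul_le_mul_of_nonneg_left hα hp0.le
  have h2 := mul_le_mul_of_nonneg_left hβ hp1.le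
  have h3 : 0 ≤ p0 * p1 * (α + β) ^ 2 := by positivity
  have h4 : c ^ 2 = p0 * c ^ 2 + p1 * c ^ 2 := by rw [← add_mul, hp, one_mul]
  rw [h]
  nlinarith

lemma hasDerivAt_J {c α β p0 p1 : ℝ} (hp0 : 0 < p0) (hp1 : 0 < p1) (hp : p0 + p1 = 1)
    (hα : c ^ 2 + α ^ 2 ≤ 1) (hβ : c ^ 2 + β ^ 2 ≤ 1) (θ : ℝ) :
    HasDerivAt (J c α β p0 p1) (G c α β p0 p1 θ) θ := by
  have h1 := (hasDerivAt_eta_X hα θ).const_mul p0
  have h2 := (hasDerivAt_eta_X (c := c) (α := -β) (by rw [neg_sq]; exact hβ) θ).const_mul p1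
  have h3 := hasDerivAt_eta_X (mix_sq hp0 hp1 hp hα hβ) θ
  exact (h1.add h2).sub h3

lemma hasDerivAt_XAt {c α θ : ℝ} (h1 : -1 < X c α θ) (h2 : X c α θ < 1) :
    HasDerivAt (fun θ => X1 c α θ * At (X c α θ))
      (X1 c α θ ^ 2 / (1 - X c α θ ^ 2) - X c α θ * At (X c α θ)) θ := by
  have a1 := (hasDerivAt_At h1 h2).comp θ (hasDerivAt_X c α θ)
  refine ((hasDerivAt_X1 c α θ).mul a1).congr_deriv ?_
  simp only [Function.comp]
  ring

lemma X_lt (c : ℝ) {α β θ : ℝ} (hδ : 0 < α + β) (hc : 0 < Real.cos θ) :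
    X c α θ < X c (-β) θ := by
  unfold X
  have := mul_pos hδ hc
  linarith

lemma G_deriv {c α β p0 p1 : ℝ} (hp0 : 0 < p0) (hp1 : 0 < p1) (hp : p0 + p1 = 1)
    (hα : c ^ 2 + α ^ 2 ≤ 1) (hβ : c ^ 2 + β ^ 2 ≤ 1) (hδ : 0 < α + β) {θ : ℝ}
    (hc : 0 < Real.cos θ) (h1 : -1 < X c α θ) (h2 : X c (-β) θ < 1) :
    ∃ d, HasDerivAt (G c α β p0 p1) d θ ∧ (G c α β p0 p1 θ = 0 → d < 0) := by
  have hlt := X_lt c hδ hc
  obtain ⟨γ, hγ⟩ : ∃ γ, γ = p0 * α - p1 * β := ⟨_, rfl⟩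
  have hm := X_mix c α β p0 p1 θ hp
  have hm1 := X1_mix c α β p0 p1 θ hp
  rw [← hγ] at hm hm1
  have e1 : p0 = 1 - p1 := by linarith
  have hz1 : -1 < X c γ θ := by
    rw [hm]; nlinarith
  have hz2 : X c γ θ < 1 := by
    rw [hm]; nlinarith
  refine ⟨_, (((hasDerivAt_XAt h1 (by linarith)).const_mul p0).add
    ((hasDerivAt_XAt (c := c) (α := -β) (θ := θ) (by linarith) h2).const_mul p1)).sub
      (hasDerivAt_XAt (c := c) (α := p0 * α - p1 * β) (θ := θ)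
        (by rw [← hγ]; exact hz1) (by rw [← hγ]; exact hz2)), fun h0 => ?_⟩
  unfold G at h0
  rw [← hγ] at h0 ⊢
  have sα := X_sq c α θ
  have sβ := X_sq c (-β) θ
  rw [neg_sq] at sβ
  have key := crit_neg (x := X c α θ) (y := X c (-β) θ) (p0 := p0) (p1 := p1) (z := X c γ θ)
    (x' := X1 c α θ) (y' := X1 c (-β) θ) h1 hlt h2 hp0 hp1 hp hm (by linarith) (by linarith)
    (by rw [← hm1]; linear_combination h0)
  rw [← hm1] at key
  refine lt_of_eq_of_lt ?_ key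
  ring

theorem right {c α β p0 p1 θs : ℝ} (hp0 : 0 < p0) (hp1 : 0 < p1) (hp : p0 + p1 = 1)
    (hα : c ^ 2 + α ^ 2 ≤ 1) (hβ : c ^ 2 + β ^ 2 ≤ 1) (hδ : 0 < α + β) (hc : 0 < c)
    (hs1 : θs < Real.pi / 2) (hs : Real.sin θs = c) {θ₁ θ₂ : ℝ}
    (h1 : -θs ≤ θ₁) (h12 : θ₁ ≤ θ₂) (h2 : θ₂ ≤ θs) (hG : θ₁ < θ₂ → G c α β p0 p1 θ₁ ≤ 0) :
    J c α β p0 p1 θ₂ ≤ J c α β p0 p1 θ₁ := by
  rcases h12.eq_or_lt with h | hlt
  · rw [h]
  have hG1 := hG hlt
  have hcos : ∀ θ, -θs ≤ θ → θ ≤ θs → 0 < Real.cos θ := fun θ a b =>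
    Real.cos_pos_of_mem_Ioo ⟨by linarith, by linarith⟩
  have hsl : ∀ θ, -θs < θ → θ ≤ θs → -c < Real.sin θ := fun θ a b => by
    rw [← hs, ← Real.sin_neg]
    exact Real.sin_lt_sin_of_lt_of_le_pi_div_two (by linarith) (by linarith) a
  have hsr : ∀ θ, -θs ≤ θ → θ < θs → Real.sin θ < c := fun θ a b => by
    rw [← hs]
    exact Real.sin_lt_sin_of_lt_of_le_pi_div_two (by linarith) (by linarith) b
  have hxl : ∀ θ, X c α θ ≤ -1 → Real.sin θ = -c ∧ X c α θ = -1 ∧ X1 c α θ = 0 := by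
    intro θ h
    have h3 := X_sq c α θ
    have h4 := X_rec c α θ
    have h5 : X c α θ ^ 2 ≤ 1 := by nlinarith [sq_nonneg (X1 c α θ)]
    have h6 : X c α θ = -1 := by nlinarith
    have h7 : X1 c α θ = 0 := by
      have : X1 c α θ ^ 2 = 0 := by
        rw [h6] at h3
        nlinarith [sq_nonneg (X1 c α θ)]
      exact pow_eq_zero_iff (two_ne_zero) |>.1 this
    rw [h6, h7] at h4
    exact ⟨by linarith, h6, h7⟩
  have hyr : ∀ θ, 1 ≤ X c (-β) θ → Real.sin θ = c := by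
    intro θ h
    have h3 := X_sq c (-β) θ
    rw [neg_sq] at h3
    have h4 := X_rec c (-β) θ
    have h5 : X c (-β) θ ^ 2 ≤ 1 := by nlinarith [sq_nonneg (X1 c (-β) θ)]
    have h6 : X c (-β) θ = 1 := by nlinarith
    have h7 : X1 c (-β) θ = 0 := by
      have : X1 c (-β) θ ^ 2 = 0 := by
        rw [h6] at h3
        nlinarith [sq_nonneg (X1 c (-β) θ)]
      exact pow_eq_zero_iff (two_ne_zero) |>.1 this
    rw [h6, h7] at h4
    linarith
  -- the left end is regular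
  have hreg : -1 < X c α θ₁ := by
    by_contra hcon
    push Not at hcon
    obtain ⟨e1, e2, e3⟩ := hxl θ₁ hcon
    have hθ : θ₁ = -θs := by
      by_contra hne
      have := hsl θ₁ (lt_of_le_of_ne h1 (Ne.symm hne)) (by linarith)
      linarith
    have hcp := hcos θ₁ h1 (by linarith)
    have hxy := X_lt c hδ hcp
    have hy1 : X c (-β) θ₁ < 1 := by
      by_contra hh
      push Not at hh
      have := hyr θ₁ hh
      linarith
    have hy' := X_rec c (-β) θ₁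
    have hy'pos : 0 < X1 c (-β) θ₁ := by
      rw [e1] at hy'
      have : 0 < Real.cos θ₁ * X1 c (-β) θ₁ := by nlinarith
      exact (mul_pos_iff_of_pos_left hcp).1 this
    have hm := X_mix c α β p0 p1 θ₁ hp
    have hm1 := X1_mix c α β p0 p1 θ₁ hp
    have hz1 : -1 < X c (p0 * α - p1 * β) θ₁ := by
      rw [hm, e2]; nlinarith
    have hz2 : X c (p0 * α - p1 * β) θ₁ < X c (-β) θ₁ := by
      rw [hm]
      have : p1 = 1 - p0 := by linarith
      rw [this]; nlinarith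
    have hAt := At_lt hz1 hz2 hy1
    have : G c α β p0 p1 θ₁ = p1 * X1 c (-β) θ₁ *
        (At (X c (-β) θ₁) - At (X c (p0 * α - p1 * β) θ₁)) := by
      unfold G
      rw [hm1, e3]
      ring
    have h9 : 0 < G c α β p0 p1 θ₁ := by
      rw [this]
      exact mul_pos (mul_pos hp1 hy'pos) (by linarith)
    linarith
  refine anti_right (J := J c α β p0 p1) (G := G c α β p0 p1) (a := θ₁) (b := θs)
    (fun θ _ _ => hasDerivAt_J hp0 hp1 hp hα hβ θ) (fun θ a b => ?_) hG1 θ₂ h12 h2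
  refine G_deriv hp0 hp1 hp hα hβ hδ (hcos θ (by linarith) b.le) ?_ ?_
  · rcases a.eq_or_lt with h | h
    · rw [← h]; exact hreg
    · by_contra hcon
      push Not at hcon
      have := (hxl θ hcon).1
      have := hsl θ (by linarith) b.le
      linarith
  · by_contra hcon
    push Not at hcon
    have := hyr θ hcon
    have := hsr θ (by linarith) b
    linarith

theorem pseudo {c α β p0 p1 θs : ℝ} (hp0 : 0 < p0) (hp1 : 0 < p1) (hp : p0 + p1 = 1)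
    (hα : c ^ 2 + α ^ 2 ≤ 1) (hβ : c ^ 2 + β ^ 2 ≤ 1) (hδ : 0 < α + β) (hc : 0 < c)
    (hs1 : θs < Real.pi / 2) (hs : Real.sin θs = c) {θ₁ θ₂ : ℝ}
    (h1 : θ₁ ∈ Icc (-θs) θs) (h2 : θ₂ ∈ Icc (-θs) θs)
    (hG : G c α β p0 p1 θ₁ * (θ₂ - θ₁) ≤ 0) :
    J c α β p0 p1 θ₂ ≤ J c α β p0 p1 θ₁ := by
  rcases le_total θ₁ θ₂ with h | h
  · refine right hp0 hp1 hp hα hβ hδ hc hs1 hs h1.1 h h2.2 fun hlt => ?_
    by_contra hcon
    push Not at hcon
    have := mul_pos hcon (sub_pos.2 hlt)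
    linarith
  · have key := right (c := c) (α := β) (β := α) (p0 := p1) (p1 := p0) (θs := θs) (θ₁ := -θ₁)
      (θ₂ := -θ₂) hp1 hp0 (by linarith) hβ hα (by linarith) hc hs1 hs
      (by linarith [h1.2]) (by linarith) (by linarith [h2.1]) (fun hlt => ?_)
    · rw [J_neg, J_neg] at key
      exact key
    · rw [G_neg]
      have : 0 ≤ G c α β p0 p1 θ₁ := by
        by_contra hcon
        push Not at hcon
        have := mul_pos_of_neg_of_neg hcon (sub_neg.2 (show θ₂ < θ₁ by linarith))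
        linarith
      linarith

end Pool.Agent.Q233.MI
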