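import Pool.Agent.Q233.MI.Main

set_option autoImplicit false

open Matrix Set
open scoped ComplexOrder

namespace Pool.Agent.Q233.MI

namespace Data

variable {ρ σ : M2}

/-- half the length of the spectrum of the Helstrom matrix -/
noncomputable def nu (ρ σ : M2) (l : ℝ) : ℝ := Real.sqrt ((l ^ 2 * W ρ σ + 2 * D ρ σ) / 4)

noncomputable def uu (ρ σ : M2) (l : ℝ) : ℝ :=
  (l * W ρ σ - (1 - mu ρ σ) * (2 * D ρ σ)) / 2 / nu ρ σ l

noncomputable def vv (ρ σ : M2) (l : ℝ) : ℝ :=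
  (l * W ρ σ + mu ρ σ * (2 * D ρ σ)) / 2 / nu ρ σ l

lemma rad_pos (h : Data ρ σ) (l : ℝ) : 0 < (l ^ 2 * W ρ σ + 2 * D ρ σ) / 4 := by
  have := h.D_pos
  have := mul_nonneg (sq_nonneg l) h.W_nonneg
  linarith

lemma nu_pos (h : Data ρ σ) (l : ℝ) : 0 < nu ρ σ l := Real.sqrt_pos.2 (h.rad_pos l)

lemma nu_sq (h : Data ρ σ) (l : ℝ) : nu ρ σ l ^ 2 = (l ^ 2 * W ρ σ + 2 * D ρ σ) / 4 :=
  Real.sq_sqrt (h.rad_pos l).le

lemma alg_sq {w d a l : ℝ} (hw : 0 ≤ w) (hd : 0 < d) (h : w + a ^ 2 * d ≤ 1) :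
    ((l * w - a * d) / 2) ^ 2 ≤ (l ^ 2 * w + d) / 4 := by
  have e1 : (l * w - a * d) ^ 2 ≤ (l ^ 2 * w + d) * (w + a ^ 2 * d) := by
    have : (l ^ 2 * w + d) * (w + a ^ 2 * d) - (l * w - a * d) ^ 2 = w * d * (l * a + 1) ^ 2 := by
      ring
    have h6 : 0 ≤ w * d * (l * a + 1) ^ 2 := by positivity
    linarith
  have e2 : (l ^ 2 * w + d) * (w + a ^ 2 * d) ≤ (l ^ 2 * w + d) * 1 :=
    mul_le_mul_of_nonneg_left h (by positivity)
  nlinarith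

lemma uu_sq (h : Data ρ σ) (l : ℝ) : uu ρ σ l ^ 2 ≤ 1 := by
  unfold uu
  rw [div_pow, h.nu_sq, div_le_one (h.rad_pos l)]
  have h3 := h.D_pos
  exact alg_sq h.W_nonneg (by linarith) h.W_alpha

lemma vv_sq (h : Data ρ σ) (l : ℝ) : vv ρ σ l ^ 2 ≤ 1 := by
  unfold vv
  rw [div_pow, h.nu_sq, div_le_one (h.rad_pos l)]
  have h3 := h.D_pos
  have := alg_sq (a := -mu ρ σ) (l := l) h.W_nonneg (show (0 : ℝ) < 2 * D ρ σ by linarith)
    (by rw [neg_sq]; exact h.W_beta)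
  refine le_of_eq_of_le ?_ this
  ring

lemma mi_formula (h : Data ρ σ) {p0 p1 : ℝ} (hp0 : 0 ≤ p0) (hp1 : 0 ≤ p1) (hp : p0 + p1 = 1)
    (l : ℝ) {Q : Fin 2 → M2} (hQ : IsEig (Hel ρ σ l) Q) {P : Fin 2 → Fin 2 → ℝ}
    (hP0 : ∀ y, P 0 y = p0 * tr ρ (Q y)) (hP1 : ∀ y, P 1 y = p1 * tr σ (Q y)) :
    mi P = p0 * eta (uu ρ σ l) + p1 * eta (vv ρ σ l) - eta (p0 * uu ρ σ l + p1 * vv ρ σ l) := by
  obtain ⟨f, hf, hA⟩ := h.meas l hQ
  have hcase : f = nu ρ σ l ∨ f = -nu ρ σ l := by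
    rw [← h.nu_sq] at hf
    exact sq_eq_sq_iff_eq_or_eq_neg.1 hf
  have hu := h.uu_sq l
  have hv := h.vv_sq l
  have k0 := hA ρ h.tρ
  have k1 := hA σ h.tσ
  rw [h.rho_N] at k0
  rw [h.sigma_N] at k1
  rcases hcase with e | e
  · rw [e] at k0 k1
    refine mi_eq hp0 hp1 hp hu hv ?_ ?_ ?_ ?_
    · rw [hP0, k0.1]; rfl
    · rw [hP0, k0.2]; rfl
    · rw [hP1, k1.1]; rfl
    · rw [hP1, k1.2]; rfl
  · rw [e, div_neg] at k0 k1
    rw [← eta_neg (uu ρ σ l), ← eta_neg (vv ρ σ l),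
      ← eta_neg (p0 * uu ρ σ l + p1 * vv ρ σ l),
      show -(p0 * uu ρ σ l + p1 * vv ρ σ l) = p0 * (-uu ρ σ l) + p1 * (-vv ρ σ l) by ring]
    refine mi_eq hp0 hp1 hp (by rw [neg_sq]; exact hu) (by rw [neg_sq]; exact hv) ?_ ?_ ?_ ?_
    · rw [hP0, k0.1]; rfl
    · rw [hP0, k0.2]; rfl
    · rw [hP1, k1.1]; rfl
    · rw [hP1, k1.2]; rfl

/-- the angle -/
noncomputable def th (ρ σ : M2) (l : ℝ) : ℝ :=
  Real.arctan (l * (Real.sqrt (W ρ σ) / Real.sqrt (2 * D ρ σ)))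

lemma sqrt_D_pos (h : Data ρ σ) : 0 < Real.sqrt (2 * D ρ σ) :=
  Real.sqrt_pos.2 (by have := h.D_pos; linarith)

lemma den (h : Data ρ σ) (l : ℝ) :
    Real.sqrt (1 + (l * (Real.sqrt (W ρ σ) / Real.sqrt (2 * D ρ σ))) ^ 2) =
      2 * nu ρ σ l / Real.sqrt (2 * D ρ σ) := by
  have hD := h.D_pos
  have hs := h.sqrt_D_pos
  have hs2 : Real.sqrt (2 * D ρ σ) ^ 2 = 2 * D ρ σ := Real.sq_sqrt (by linarith)
  have hw2 : Real.sqrt (W ρ σ) ^ 2 = W ρ σ := Real.sq_sqrt h.W_nonneg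
  rw [Real.sqrt_eq_iff_mul_self_eq_of_pos
    (div_pos (mul_pos two_pos (h.nu_pos l)) hs)]
  rw [← pow_two, div_pow, mul_pow, h.nu_sq, mul_pow, div_pow, hs2, hw2]
  field_simp
  ring

lemma sin_th (h : Data ρ σ) (l : ℝ) :
    Real.sin (th ρ σ l) = l * Real.sqrt (W ρ σ) / (2 * nu ρ σ l) := by
  unfold th
  rw [Real.sin_arctan, h.den]
  have hs := h.sqrt_D_pos.ne'
  have hn := (h.nu_pos l).ne'
  field_simp

lemma cos_th (h : Data ρ σ) (l : ℝ) :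
    Real.cos (th ρ σ l) = Real.sqrt (2 * D ρ σ) / (2 * nu ρ σ l) := by
  unfold th
  rw [Real.cos_arctan, h.den]
  have hs := h.sqrt_D_pos.ne'
  have hn := (h.nu_pos l).ne'
  field_simp

lemma uu_X (h : Data ρ σ) (l : ℝ) : uu ρ σ l =
    X (Real.sqrt (W ρ σ)) ((1 - mu ρ σ) * Real.sqrt (2 * D ρ σ)) (th ρ σ l) := by
  unfold X uu
  rw [h.sin_th, h.cos_th]
  have hn := (h.nu_pos l).ne'
  have hD := h.D_pos
  have hs2 : Real.sqrt (2 * D ρ σ) ^ 2 = 2 * D ρ σ := Real.sq_sqrt (by linarith)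
  have hw2 : Real.sqrt (W ρ σ) ^ 2 = W ρ σ := Real.sq_sqrt h.W_nonneg
  field_simp
  rw [hs2, hw2]
  ring

lemma vv_X (h : Data ρ σ) (l : ℝ) : vv ρ σ l =
    X (Real.sqrt (W ρ σ)) (-(mu ρ σ * Real.sqrt (2 * D ρ σ))) (th ρ σ l) := by
  unfold X vv
  rw [h.sin_th, h.cos_th]
  have hn := (h.nu_pos l).ne'
  have hD := h.D_pos
  have hs2 : Real.sqrt (2 * D ρ σ) ^ 2 = 2 * D ρ σ := Real.sq_sqrt (by linarith)
  have hw2 : Real.sqrt (W ρ σ) ^ 2 = W ρ σ := Real.sq_sqrt h.W_nonneg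
  field_simp
  rw [hs2, hw2]
  ring

/-- the endpoint -/
noncomputable def ls (ρ σ : M2) : ℝ :=
  tr (ρ - σ) (ρ - σ) / Real.sqrt (tr (ρ - σ) (ρ - σ) - tr ρ ρ * tr σ σ + tr ρ σ ^ 2)

lemma radicand_pos (h : Data ρ σ) :
    0 < tr (ρ - σ) (ρ - σ) - tr ρ ρ * tr σ σ + tr ρ σ ^ 2 := by
  rw [h.radicand]
  have := mul_pos h.D_pos (sub_pos.2 h.W_lt_one)
  linarith

lemma ls_pos (h : Data ρ σ) : 0 < ls ρ σ :=
  div_pos h.D_pos (Real.sqrt_pos.2 h.radicand_pos)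

lemma ls_sq (h : Data ρ σ) : ls ρ σ ^ 2 * (1 - W ρ σ) = 2 * D ρ σ := by
  unfold ls
  rw [div_pow, Real.sq_sqrt h.radicand_pos.le, h.radicand,
    show tr (ρ - σ) (ρ - σ) = D ρ σ from rfl]
  have h1 := h.D_pos.ne'
  have h2 := (sub_pos.2 h.W_lt_one).ne'
  field_simp

lemma sin_th_ls (h : Data ρ σ) : Real.sin (th ρ σ (ls ρ σ)) = Real.sqrt (W ρ σ) := by
  rw [h.sin_th]
  have h1 : 2 * nu ρ σ (ls ρ σ) = ls ρ σ := by
    have e : (2 * nu ρ σ (ls ρ σ)) ^ 2 = ls ρ σ ^ 2 := by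
      rw [mul_pow, h.nu_sq]
      have := h.ls_sq
      linear_combination -this
    rcases sq_eq_sq_iff_eq_or_eq_neg.1 e with e | e
    · exact e
    · have := h.nu_pos (ls ρ σ)
      have := h.ls_pos
      linarith
  rw [h1, mul_comm, mul_div_assoc, div_self h.ls_pos.ne', mul_one]

lemma PC_const {f : ℝ → ℝ} {a b k : ℝ} (hf : ∀ x ∈ Icc a b, f x = k) : PC f a b := by
  refine ⟨fun x hx => ?_, fun x hx y hy _ => by rw [hf x hx, hf y hy]⟩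
  have : DifferentiableWithinAt ℝ (fun _ : ℝ => k) (Icc a b) x :=
    differentiableWithinAt_const _
  exact this.congr hf (hf x hx)

theorem main (h : Data ρ σ) {p0 p1 : ℝ} (hp0 : 0 ≤ p0) (hp1 : 0 ≤ p1) (hp : p0 + p1 = 1)
    {f : ℝ → ℝ} (hf : ∀ l ∈ Icc (-ls ρ σ) (ls ρ σ),
      f l = p0 * eta (uu ρ σ l) + p1 * eta (vv ρ σ l) - eta (p0 * uu ρ σ l + p1 * vv ρ σ l)) :
    PC f (-ls ρ σ) (ls ρ σ) := by
  rcases hp0.eq_or_lt with h0 | hp0'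
  · refine PC_const (k := 0) fun x hx => ?_
    have : p1 = 1 := by linarith
    rw [hf x hx, ← h0, this]; simp
  rcases hp1.eq_or_lt with h0 | hp1'
  · refine PC_const (k := 0) fun x hx => ?_
    have : p0 = 1 := by linarith
    rw [hf x hx, ← h0, this]; simp
  have hD := h.D_pos
  have hs := h.sqrt_D_pos
  have hs2 : Real.sqrt (2 * D ρ σ) ^ 2 = 2 * D ρ σ := Real.sq_sqrt (by linarith)
  have hw2 : Real.sqrt (W ρ σ) ^ 2 = W ρ σ := Real.sq_sqrt h.W_nonneg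
  rcases h.W_nonneg.eq_or_lt with hW | hW
  · have hnu : ∀ l, nu ρ σ l = nu ρ σ 0 := by
      intro l; unfold nu; rw [← hW]; simp
    refine PC_const (k := p0 * eta (uu ρ σ 0) + p1 * eta (vv ρ σ 0) -
      eta (p0 * uu ρ σ 0 + p1 * vv ρ σ 0)) fun x hx => ?_
    have e1 : uu ρ σ x = uu ρ σ 0 := by
      unfold uu; rw [hnu x, ← hW]; simp
    have e2 : vv ρ σ x = vv ρ σ 0 := by
      unfold vv; rw [hnu x, ← hW]; simp
    rw [hf x hx, e1, e2]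
  obtain ⟨c, hc⟩ : ∃ c, c = Real.sqrt (W ρ σ) := ⟨_, rfl⟩
  obtain ⟨α, hα⟩ : ∃ α, α = (1 - mu ρ σ) * Real.sqrt (2 * D ρ σ) := ⟨_, rfl⟩
  obtain ⟨β, hβ⟩ : ∃ β, β = mu ρ σ * Real.sqrt (2 * D ρ σ) := ⟨_, rfl⟩
  obtain ⟨L, hL⟩ : ∃ L, L = ls ρ σ := ⟨_, rfl⟩
  obtain ⟨k, hk⟩ : ∃ k, k = Real.sqrt (W ρ σ) / Real.sqrt (2 * D ρ σ) := ⟨_, rfl⟩
  have hL0 : 0 < L := by rw [hL]; exact h.ls_pos
  have hc0 : 0 < c := by rw [hc]; exact Real.sqrt_pos.2 hW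
  have hk0 : 0 < k := by rw [hk]; exact div_pos (by rw [← hc]; exact hc0) hs
  have hth : ∀ l, th ρ σ l = Real.arctan (l * k) := fun l => by rw [hk]; rfl
  have hJ : ∀ l ∈ Icc (-L) L, f l = J c α β p0 p1 (Real.arctan (l * k)) := by
    intro l hl
    rw [hL] at hl
    rw [hf l hl, h.uu_X, h.vv_X, ← hc, ← hα, ← hβ, hth, ← X_mix c α β p0 p1 _ hp]
    rfl
  have hcα : c ^ 2 + α ^ 2 ≤ 1 := by
    rw [hc, hα, mul_pow, hs2, hw2]; exact h.W_alpha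
  have hcβ : c ^ 2 + β ^ 2 ≤ 1 := by
    rw [hc, hβ, mul_pow, hs2, hw2]; exact h.W_beta
  have hαβ : 0 < α + β := by
    rw [hα, hβ, ← add_mul]; simpa using hs
  have hsin : Real.sin (Real.arctan (L * k)) = c := by
    rw [← hth, hL, h.sin_th_ls, hc]
  have hder : ∀ l, HasDerivAt (fun l => J c α β p0 p1 (Real.arctan (l * k)))
      (G c α β p0 p1 (Real.arctan (l * k)) * (1 / (1 + (l * k) ^ 2) * k)) l := by
    intro l
    have d1 : HasDerivAt (fun l : ℝ => l * k) k l := by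
      simpa using (hasDerivAt_id l).mul_const k
    have d2 : HasDerivAt (fun l : ℝ => Real.arctan (l * k)) (1 / (1 + (l * k) ^ 2) * k) l :=
      d1.arctan
    exact (hasDerivAt_J hp0' hp1' hp hcα hcβ _).comp l d2
  have hud : UniqueDiffOn ℝ (Icc (-L) L) := uniqueDiffOn_Icc (by linarith)
  have hdw : ∀ l ∈ Icc (-L) L, HasDerivWithinAt f
      (G c α β p0 p1 (Real.arctan (l * k)) * (1 / (1 + (l * k) ^ 2) * k)) (Icc (-L) L) l := by
    intro l hl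
    exact (hder l).hasDerivWithinAt.congr hJ (hJ l hl)
  rw [← hL]
  refine ⟨fun l hl => (hdw l hl).differentiableWithinAt, fun x hx y hy hxy => ?_⟩
  rw [(hdw x hx).derivWithin (hud x hx)] at hxy
  have hpos : 0 < 1 / (1 + (x * k) ^ 2) * k := by positivity
  have mono : ∀ a b, a ≤ b → Real.arctan (a * k) ≤ Real.arctan (b * k) := fun a b hab =>
    Real.arctan_mono (mul_le_mul_of_nonneg_right hab hk0.le)
  have hG : G c α β p0 p1 (Real.arctan (x * k)) * (y - x) ≤ 0 := by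
    by_contra hcon
    push Not at hcon
    have := mul_pos hcon hpos
    nlinarith
  rw [hJ x hx, hJ y hy]
  have hmem : ∀ l ∈ Icc (-L) L,
      Real.arctan (l * k) ∈ Icc (-Real.arctan (L * k)) (Real.arctan (L * k)) := by
    intro l hl
    refine ⟨?_, mono l L hl.2⟩
    have := mono (-L) l hl.1
    rwa [neg_mul, Real.arctan_neg] at this
  refine pseudo hp0' hp1' hp hcα hcβ hαβ hc0 (Real.arctan_lt_pi_div_two _) hsin
    (hmem x hx) (hmem y hy) ?_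
  rcases lt_trichotomy x y with hlt | heq | hlt
  · have g0 : G c α β p0 p1 (Real.arctan (x * k)) ≤ 0 := by
      by_contra hcon
      push Not at hcon
      have := mul_pos hcon (sub_pos.2 hlt)
      linarith
    exact mul_nonpos_of_nonpos_of_nonneg g0 (sub_nonneg.2 (mono x y hlt.le))
  · rw [heq, sub_self, mul_zero]
  · have g0 : 0 ≤ G c α β p0 p1 (Real.arctan (x * k)) := by
      by_contra hcon
      push Not at hcon
      have := mul_pos_of_neg_of_neg hcon (sub_neg.2 hlt)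
      linarith
    exact mul_nonpos_of_nonneg_of_nonpos g0 (sub_nonpos.2 (mono y x hlt.le))

end Data

end Pool.Agent.Q233.MI
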