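import Pool.Agent.Q233.MI.Mat2

set_option autoImplicit false

open Matrix Set
open scoped ComplexOrder

namespace Pool.Agent.Q233.MI

/-- mutual information of a distribution on `{0,1} × {0,1}` -/
noncomputable def mi (P : Fin 2 → Fin 2 → ℝ) : ℝ :=
  ∑ x, ∑ y, P x y * Real.log (P x y / ((∑ y', P x y') * ∑ x', P x' y))

def PC (f : ℝ → ℝ) (a b : ℝ) : Prop :=
  DifferentiableOn ℝ f (Icc a b) ∧
    ∀ x ∈ Icc a b, ∀ y ∈ Icc a b, derivWithin f (Icc a b) x * (y - x) ≤ 0 → f y ≤ f x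

lemma mi_term {p a q : ℝ} (hq : q = 0 → p * a = 0) :
    p * a * Real.log (p * a / (p * q)) = p * T a - p * a * Real.log q := by
  unfold T
  rcases eq_or_ne p 0 with rfl | h1
  · simp
  rcases eq_or_ne a 0 with rfl | h2
  · simp
  have h3 : q ≠ 0 := fun h => (mul_ne_zero h1 h2) (hq h)
  rw [mul_div_mul_left _ _ h1, Real.log_div h2 h3]
  ring

lemma mi_eq {p0 p1 u v : ℝ} (hp0 : 0 ≤ p0) (hp1 : 0 ≤ p1) (hp : p0 + p1 = 1)
    (hu : u ^ 2 ≤ 1) (hv : v ^ 2 ≤ 1) {P : Fin 2 → Fin 2 → ℝ}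
    (h00 : P 0 0 = p0 * ((1 + u) / 2)) (h01 : P 0 1 = p0 * ((1 - u) / 2))
    (h10 : P 1 0 = p1 * ((1 + v) / 2)) (h11 : P 1 1 = p1 * ((1 - v) / 2)) :
    mi P = p0 * eta u + p1 * eta v - eta (p0 * u + p1 * v) := by
  have hu' := abs_le.1 ((sq_le_one_iff_abs_le_one _).1 hu)
  have hv' := abs_le.1 ((sq_le_one_iff_abs_le_one _).1 hv)
  unfold mi
  simp only [Fin.sum_univ_two, h00, h01, h10, h11]
  have e1 : p0 * ((1 + u) / 2) + p0 * ((1 - u) / 2) = p0 := by ring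
  have e2 : p1 * ((1 + v) / 2) + p1 * ((1 - v) / 2) = p1 := by ring
  obtain ⟨q0, hq0⟩ : ∃ q0, q0 = p0 * ((1 + u) / 2) + p1 * ((1 + v) / 2) := ⟨_, rfl⟩
  obtain ⟨q1, hq1⟩ : ∃ q1, q1 = p0 * ((1 - u) / 2) + p1 * ((1 - v) / 2) := ⟨_, rfl⟩
  rw [e1, e2, ← hq0, ← hq1]
  have n1 : 0 ≤ p0 * ((1 + u) / 2) := mul_nonneg hp0 (by linarith)
  have n2 : 0 ≤ p0 * ((1 - u) / 2) := mul_nonneg hp0 (by linarith)
  have n3 : 0 ≤ p1 * ((1 + v) / 2) := mul_nonneg hp1 (by linarith)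
  have n4 : 0 ≤ p1 * ((1 - v) / 2) := mul_nonneg hp1 (by linarith)
  rw [mi_term (fun h => by linarith), mi_term (fun h => by linarith),
    mi_term (fun h => by linarith), mi_term (fun h => by linarith)]
  have e3 : (1 + (p0 * u + p1 * v)) / 2 = q0 := by
    rw [hq0]; linear_combination (-1 / 2) * hp
  have e4 : (1 - (p0 * u + p1 * v)) / 2 = q1 := by
    rw [hq1]; linear_combination (-1 / 2) * hp
  unfold eta
  rw [e3, e4]
  have e5 : T q0 = q0 * Real.log q0 := rfl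
  have e6 : T q1 = q1 * Real.log q1 := rfl
  rw [e5, e6]
  have e7 : q0 * Real.log q0 = (p0 * ((1 + u) / 2) + p1 * ((1 + v) / 2)) * Real.log q0 := by
    rw [hq0]
  have e8 : q1 * Real.log q1 = (p0 * ((1 - u) / 2) + p1 * ((1 - v) / 2)) * Real.log q1 := by
    rw [hq1]
  rw [e7, e8]
  ring

namespace Data

variable {ρ σ : M2}

lemma meas (h : Data ρ σ) (l : ℝ) {Q : Fin 2 → M2} (hQ : IsEig (Hel ρ σ l) Q) :
    ∃ f : ℝ, f ^ 2 = (l ^ 2 * W ρ σ + 2 * D ρ σ) / 4 ∧ ∀ A : M2, A.trace = 1 →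
      tr A (Q 0) = (1 + tr A (N ρ σ l) / f) / 2 ∧ tr A (Q 1) = (1 - tr A (N ρ σ l) / f) / 2 := by
  obtain ⟨e0, he0⟩ := hQ.eigen 0
  obtain ⟨e1, he1⟩ := hQ.eigen 1
  have k0 : N ρ σ l * Q 0 = ((e0 - l / 2 : ℝ) : ℂ) • Q 0 := by
    unfold N
    rw [Matrix.sub_mul, Matrix.smul_mul, Matrix.one_mul, he0, ← sub_smul]
    push_cast; rfl
  have k1 : N ρ σ l * Q 1 = ((e1 - l / 2 : ℝ) : ℂ) • Q 1 := by
    unfold N
    rw [Matrix.sub_mul, Matrix.smul_mul, Matrix.one_mul, he1, ← sub_smul]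
    push_cast; rfl
  obtain ⟨f0, hf0⟩ : ∃ f0, f0 = e0 - l / 2 := ⟨_, rfl⟩
  obtain ⟨f1, hf1⟩ : ∃ f1, f1 = e1 - l / 2 := ⟨_, rfl⟩
  rw [← hf0] at k0
  rw [← hf1] at k1
  have kN : N ρ σ l = (f0 : ℂ) • Q 0 + (f1 : ℂ) • Q 1 := by
    rw [← k0, ← k1, ← Matrix.mul_add, hQ.sum_eq, Matrix.mul_one]
  have kt : f0 + f1 = 0 := by
    have := congrArg Matrix.trace kN
    rw [h.N_trace, trace_add, trace_smul, trace_smul, hQ.rank_one, hQ.rank_one] at this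
    simp only [smul_eq_mul, mul_one] at this
    exact_mod_cast this.symm
  have kQ1 : Q 1 = 1 - Q 0 := by rw [← hQ.sum_eq]; abel
  have kN2 : N ρ σ l = (f0 : ℂ) • ((2 : ℂ) • Q 0 - 1) := by
    rw [kN, kQ1, show f1 = -f0 by linarith]
    push_cast
    rw [smul_sub, smul_sub, smul_smul, neg_smul, neg_smul, mul_comm (f0 : ℂ) 2, mul_smul,
      two_smul]
    abel
  have kN3 : N ρ σ l * N ρ σ l = ((f0 ^ 2 : ℝ) : ℂ) • (1 : M2) := by
    rw [kN2, Matrix.smul_mul, Matrix.mul_smul, smul_smul, Matrix.sub_mul, Matrix.mul_sub,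
      Matrix.mul_sub, Matrix.smul_mul, Matrix.mul_smul, hQ.idem 0, Matrix.mul_one, Matrix.one_mul,
      Matrix.mul_one, smul_smul]
    push_cast
    rw [show (2 : ℂ) * 2 = 2 + 2 by norm_num, add_smul, ← pow_two]
    congr 1
    abel
  have kf : f0 ^ 2 = (l ^ 2 * W ρ σ + 2 * D ρ σ) / 4 := by
    rw [sq_traceless (h.N_trace l) (h.N_herm l), h.N_N] at kN3
    have := congrFun (congrFun kN3 0) 0
    simp only [Matrix.smul_apply, Matrix.one_apply_eq, smul_eq_mul, mul_one] at this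
    have h2 : (l ^ 2 * W ρ σ + 2 * D ρ σ) / 2 / 2 = f0 ^ 2 := by exact_mod_cast this
    rw [← h2]; ring
  have hf : f0 ≠ 0 := by
    rintro h0
    rw [h0] at kf
    have := h.D_pos
    have := mul_nonneg (sq_nonneg l) h.W_nonneg
    nlinarith
  refine ⟨f0, kf, fun A hA => ?_⟩
  have e : tr A (N ρ σ l) = f0 * (2 * tr A (Q 0) - 1) := by
    rw [kN2, tr_smul_right, tr_sub_right, tr_one, hA]
    have : tr A ((2 : ℂ) • Q 0) = 2 * tr A (Q 0) := by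
      have := tr_smul_right 2 A (Q 0)
      push_cast at this
      exact this
    rw [this]
    simp
  constructor
  · rw [e]; field_simp; ring
  · rw [kQ1, tr_sub_right, tr_one, hA, e]; field_simp; simp; ring

lemma exists_meas (h : Data ρ σ) (l : ℝ) : ∃ Q, IsEig (Hel ρ σ l) Q := by
  obtain ⟨ν, hν⟩ : ∃ ν, ν = Real.sqrt ((l ^ 2 * W ρ σ + 2 * D ρ σ) / 4) := ⟨_, rfl⟩
  have hpos : 0 < (l ^ 2 * W ρ σ + 2 * D ρ σ) / 4 := by
    have := h.D_pos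
    have := mul_nonneg (sq_nonneg l) h.W_nonneg
    linarith
  have hν0 : 0 < ν := by rw [hν]; exact Real.sqrt_pos.2 hpos
  have hν2 : ν ^ 2 = (l ^ 2 * W ρ σ + 2 * D ρ σ) / 4 := by rw [hν]; exact Real.sq_sqrt hpos.le
  have hNN : N ρ σ l * N ρ σ l = ((ν ^ 2 : ℝ) : ℂ) • (1 : M2) := by
    rw [sq_traceless (h.N_trace l) (h.N_herm l), h.N_N, hν2]
    congr 2
    ring
  obtain ⟨B, hB⟩ : ∃ B : M2, B = ((ν⁻¹ : ℝ) : ℂ) • N ρ σ l := ⟨_, rfl⟩
  have hBB : B * B = 1 := by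
    rw [hB, Matrix.smul_mul, Matrix.mul_smul, hNN, smul_smul, smul_smul, ← Complex.ofReal_mul,
      ← Complex.ofReal_mul, show ν⁻¹ * ν⁻¹ * ν ^ 2 = 1 by field_simp]
    simp
  have hBt : B.trace = 0 := by rw [hB, trace_smul, h.N_trace, smul_zero]
  have hBh : Bᴴ = B := by
    rw [hB, conjTranspose_smul, h.N_herm l]
    simp
  have hH : Hel ρ σ l = ((l / 2 : ℝ) : ℂ) • (1 : M2) + (ν : ℂ) • B := by
    rw [hB, smul_smul, ← Complex.ofReal_mul, mul_inv_cancel₀ hν0.ne', Complex.ofReal_one,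
      one_smul]
    unfold N
    abel
  have half : ((1 / 2 : ℝ) : ℂ) = 1 / 2 := by push_cast; rfl
  have gen : ∀ s : ℝ, s ^ 2 = 1 → ((1 / 2 : ℂ) • (1 + (s : ℂ) • B)).IsHermitian ∧
      ((1 / 2 : ℂ) • (1 + (s : ℂ) • B)) * ((1 / 2 : ℂ) • (1 + (s : ℂ) • B)) =
        (1 / 2 : ℂ) • (1 + (s : ℂ) • B) ∧ ((1 / 2 : ℂ) • (1 + (s : ℂ) • B)).trace = 1 ∧
      Hel ρ σ l * ((1 / 2 : ℂ) • (1 + (s : ℂ) • B)) =
        ((l / 2 + ν * s : ℝ) : ℂ) • ((1 / 2 : ℂ) • (1 + (s : ℂ) • B)) := by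
    intro s hs
    have hs' : (s : ℂ) * s = 1 := by
      rw [← Complex.ofReal_mul, ← pow_two, hs, Complex.ofReal_one]
    refine ⟨?_, ?_, ?_, ?_⟩
    · unfold Matrix.IsHermitian
      rw [conjTranspose_smul, conjTranspose_add, conjTranspose_smul, hBh, conjTranspose_one]
      simp
    · have e1 : ((s : ℂ) • B) * ((s : ℂ) • B) = 1 := by
        rw [smul_mul_smul_comm, hs', hBB, one_smul]
      rw [smul_mul_smul_comm, Matrix.add_mul, Matrix.mul_add, Matrix.mul_add, e1, Matrix.mul_one,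
        Matrix.one_mul, Matrix.mul_one,
        show (1 : M2) + (s : ℂ) • B + ((s : ℂ) • B + 1) = (2 : ℂ) • (1 + (s : ℂ) • B) by
          rw [two_smul]; abel, smul_smul]
      congr 1
      norm_num
    · rw [trace_smul, trace_add, trace_smul, hBt, trace_one]
      simp
    · rw [hH, Matrix.mul_smul, smul_comm _ (1 / 2 : ℂ)]
      congr 1
      rw [Matrix.add_mul, Matrix.smul_mul, Matrix.one_mul, Matrix.smul_mul, Matrix.mul_add,
        Matrix.mul_one, Matrix.mul_smul, hBB]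
      push_cast
      rw [add_smul]
      congr 1
      rw [smul_add, smul_add, smul_smul, smul_smul, mul_assoc, hs', mul_one, add_comm]
  have g1 := gen 1 (by norm_num)
  have g2 := gen (-1) (by norm_num)
  refine ⟨![(1 / 2 : ℂ) • (1 + ((1 : ℝ) : ℂ) • B), (1 / 2 : ℂ) • (1 + ((-1 : ℝ) : ℂ) • B)],
    ?_, ?_, ?_, ?_, ?_⟩
  · intro y; fin_cases y
    · exact g1.1
    · exact g2.1
  · intro y; fin_cases y
    · exact g1.2.1
    · exact g2.2.1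
  · intro y; fin_cases y
    · exact g1.2.2.1
    · exact g2.2.2.1
  · show (1 / 2 : ℂ) • (1 + ((1 : ℝ) : ℂ) • B) + (1 / 2 : ℂ) • (1 + ((-1 : ℝ) : ℂ) • B) = 1
    rw [← smul_add]
    push_cast
    rw [one_smul, neg_one_smul, show (1 : M2) + B + (1 + -B) = (2 : ℂ) • (1 : M2) by
      rw [two_smul]; abel, smul_smul]
    norm_num
  · intro y; fin_cases y
    · exact ⟨_, g1.2.2.2⟩
    · exact ⟨_, g2.2.2.2⟩

end Data

end Pool.Agent.Q233.MI
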