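import Pool.Agent.Q233.MI.Curve

set_option autoImplicit false

open Matrix Set
open scoped ComplexOrder

namespace Pool.Agent.Q233.MI

abbrev M2 : Type := Matrix (Fin 2) (Fin 2) ℂ

/-- `Tr (A B)` (its real part) -/
noncomputable def tr (A B : M2) : ℝ := (A * B).trace.re

noncomputable def mu (ρ σ : M2) : ℝ := (tr σ σ - tr ρ σ) / tr (ρ - σ) (ρ - σ)

noncomputable def omega (ρ σ : M2) : M2 :=
  ((mu ρ σ : ℝ) : ℂ) • ρ + ((1 - mu ρ σ : ℝ) : ℂ) • σ

noncomputable def Hel (ρ σ : M2) (l : ℝ) : M2 := (l : ℂ) • omega ρ σ - (ρ - σ)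

structure IsEig (A : M2) (Q : Fin 2 → M2) : Prop where
  herm : ∀ y, (Q y).IsHermitian
  idem : ∀ y, Q y * Q y = Q y
  rank_one : ∀ y, (Q y).trace = 1
  sum_eq : Q 0 + Q 1 = 1
  eigen : ∀ y, ∃ e : ℝ, A * Q y = (e : ℂ) • Q y

lemma tr_comm (A B : M2) : tr A B = tr B A := by
  unfold tr; rw [Matrix.trace_mul_comm]

lemma tr_add_left (A B C : M2) : tr (A + B) C = tr A C + tr B C := by
  unfold tr; rw [Matrix.add_mul, Matrix.trace_add, Complex.add_re]

lemma tr_sub_left (A B C : M2) : tr (A - B) C = tr A C - tr B C := by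
  unfold tr; rw [Matrix.sub_mul, Matrix.trace_sub, Complex.sub_re]

lemma tr_smul_left (r : ℝ) (A C : M2) : tr ((r : ℂ) • A) C = r * tr A C := by
  unfold tr; rw [Matrix.smul_mul, Matrix.trace_smul, smul_eq_mul, Complex.re_ofReal_mul]

lemma tr_add_right (A B C : M2) : tr A (B + C) = tr A B + tr A C := by
  rw [tr_comm, tr_add_left, tr_comm B, tr_comm C]

lemma tr_sub_right (A B C : M2) : tr A (B - C) = tr A B - tr A C := by
  rw [tr_comm, tr_sub_left, tr_comm B, tr_comm C]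

lemma tr_smul_right (r : ℝ) (A C : M2) : tr A ((r : ℂ) • C) = r * tr A C := by
  rw [tr_comm, tr_smul_left, tr_comm C]

lemma tr_one (A : M2) : tr A 1 = A.trace.re := by unfold tr; rw [Matrix.mul_one]

lemma herm_entries {A : M2} (hA : A.IsHermitian) :
    (A 0 0).im = 0 ∧ (A 1 1).im = 0 ∧ A 1 0 = (starRingEnd ℂ) (A 0 1) := by
  have h0 := hA.apply 0 0
  have h1 := hA.apply 1 1
  have h2 := hA.apply 0 1
  have h3 := hA.apply 1 0
  refine ⟨?_, ?_, ?_⟩
  · have := congrArg Complex.im h0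
    simp at this
    linarith
  · have := congrArg Complex.im h1
    simp at this
    linarith
  · rw [← h3]; simp

lemma tr_self {A : M2} (hA : A.IsHermitian) :
    tr A A = (A 0 0).re ^ 2 + (A 1 1).re ^ 2 + 2 * ((A 0 1).re ^ 2 + (A 0 1).im ^ 2) := by
  obtain ⟨h0, h1, h2⟩ := herm_entries hA
  unfold tr
  rw [Matrix.trace_fin_two, Matrix.mul_apply, Matrix.mul_apply, Fin.sum_univ_two,
    Fin.sum_univ_two, h2]
  simp [h0, h1]
  ring

lemma tr_self_nonneg {A : M2} (hA : A.IsHermitian) : 0 ≤ tr A A := by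
  rw [tr_self hA]; positivity

lemma tr_self_pos {A : M2} (hA : A.IsHermitian) (h : A ≠ 0) : 0 < tr A A := by
  refine lt_of_le_of_ne (tr_self_nonneg hA) fun h0 => h ?_
  rw [tr_self hA] at h0
  obtain ⟨i0, i1, i2⟩ := herm_entries hA
  have e0 : (A 0 0).re = 0 := by
    have := sq_nonneg (A 0 0).re
    have := sq_nonneg (A 1 1).re
    have := sq_nonneg (A 0 1).re
    have := sq_nonneg (A 0 1).im
    have h5 : (A 0 0).re ^ 2 = 0 := by linarith
    exact pow_eq_zero_iff (two_ne_zero) |>.1 h5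
  have e1 : (A 1 1).re = 0 := by
    have := sq_nonneg (A 0 0).re
    have := sq_nonneg (A 1 1).re
    have := sq_nonneg (A 0 1).re
    have := sq_nonneg (A 0 1).im
    have h5 : (A 1 1).re ^ 2 = 0 := by linarith
    exact pow_eq_zero_iff (two_ne_zero) |>.1 h5
  have e2 : (A 0 1).re = 0 := by
    have := sq_nonneg (A 0 0).re
    have := sq_nonneg (A 1 1).re
    have := sq_nonneg (A 0 1).re
    have := sq_nonneg (A 0 1).im
    have h5 : (A 0 1).re ^ 2 = 0 := by linarith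
    exact pow_eq_zero_iff (two_ne_zero) |>.1 h5
  have e3 : (A 0 1).im = 0 := by
    have := sq_nonneg (A 0 0).re
    have := sq_nonneg (A 1 1).re
    have := sq_nonneg (A 0 1).re
    have := sq_nonneg (A 0 1).im
    have h5 : (A 0 1).im ^ 2 = 0 := by linarith
    exact pow_eq_zero_iff (two_ne_zero) |>.1 h5
  have f0 : A 0 0 = 0 := Complex.ext e0 i0
  have f1 : A 1 1 = 0 := Complex.ext e1 i1
  have f2 : A 0 1 = 0 := Complex.ext e2 e3
  have f3 : A 1 0 = 0 := by rw [i2, f2, map_zero]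
  ext i j
  fin_cases i <;> fin_cases j <;> simp [f0, f1, f2, f3]

lemma half_le_tr {A : M2} (hA : A.IsHermitian) (ht : A.trace = 1) : 1 / 2 ≤ tr A A := by
  rw [tr_self hA]
  have h : (A 0 0).re + (A 1 1).re = 1 := by
    have := congrArg Complex.re ht
    rw [Matrix.trace_fin_two] at this
    simpa using this
  nlinarith [sq_nonneg ((A 0 0).re - (A 1 1).re), sq_nonneg (A 0 1).re, sq_nonneg (A 0 1).im]

lemma tr_le_one {A : M2} (hA : A.PosSemidef) (ht : A.trace = 1) : tr A A ≤ 1 := by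
  rw [tr_self hA.1]
  have h : (A 0 0).re + (A 1 1).re = 1 := by
    have := congrArg Complex.re ht
    rw [Matrix.trace_fin_two] at this
    simpa using this
  obtain ⟨i0, i1, i2⟩ := herm_entries hA.1
  have hdet : 0 ≤ A.det.re := by
    have := hA.det_nonneg
    exact (Complex.le_def.1 this).1
  rw [Matrix.det_fin_two, i2] at hdet
  simp only [Complex.sub_re, Complex.mul_re, Complex.conj_re, Complex.conj_im, i0, i1] at hdet
  have : (A 1 1).re = 1 - (A 0 0).re := by linarith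
  rw [this] at hdet ⊢
  nlinarith

/-- a traceless 2 x 2 matrix squares to a scalar -/
lemma sq_traceless {A : M2} (ht : A.trace = 0) (hA : A.IsHermitian) :
    A * A = ((tr A A / 2 : ℝ) : ℂ) • (1 : M2) := by
  obtain ⟨i0, i1, i2⟩ := herm_entries hA
  rw [tr_self hA]
  rw [Matrix.trace_fin_two] at ht
  have h1 : A 1 1 = -A 0 0 := by linear_combination ht
  have h0 : A 0 0 = ((A 0 0).re : ℂ) := by
    apply Complex.ext <;> simp [i0]
  have h2 : A 0 1 * (starRingEnd ℂ) (A 0 1) = (((A 0 1).re ^ 2 + (A 0 1).im ^ 2 : ℝ) : ℂ) := by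
    rw [Complex.mul_conj, Complex.normSq_apply]
    push_cast
    ring
  have h3 : (A 1 1).re = -(A 0 0).re := by rw [h1]; simp
  obtain ⟨u, hu⟩ : ∃ u : ℝ, u = (A 0 0).re := ⟨_, rfl⟩
  obtain ⟨q, hq⟩ : ∃ q : ℝ, q = (A 0 1).re ^ 2 + (A 0 1).im ^ 2 := ⟨_, rfl⟩
  rw [h3]
  rw [← hu] at h0 ⊢
  rw [← hq] at h2 ⊢
  ext i j
  fin_cases i <;> fin_cases j
  · simp [Matrix.mul_apply, Fin.sum_univ_two, i2, h2]
    rw [h0]; ring
  · simp [Matrix.mul_apply, Fin.sum_univ_two, h1]
    ring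
  · simp [Matrix.mul_apply, Fin.sum_univ_two, h1]
    ring
  · simp [Matrix.mul_apply, Fin.sum_univ_two, i2, h1]
    rw [mul_comm, h2, h0]; ring

end Pool.Agent.Q233.MI
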