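import Pool.Agent.Q233.MI.Mat

set_option autoImplicit false

open Matrix Set
open scoped ComplexOrder

namespace Pool.Agent.Q233.MI

/-- the data of the two states -/
structure Data (ρ σ : M2) : Prop where
  hρ : ρ.PosSemidef
  hσ : σ.PosSemidef
  tρ : ρ.trace = 1
  tσ : σ.trace = 1
  ne : ρ ≠ σ

variable {ρ σ : M2}

namespace Data

noncomputable def D (ρ σ : M2) : ℝ := tr (ρ - σ) (ρ - σ)

/-- `|w| ^ 2` -/
noncomputable def W (ρ σ : M2) : ℝ := 2 * tr (omega ρ σ) (omega ρ σ) - 1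

lemma D_pos (h : Data ρ σ) : 0 < D ρ σ :=
  tr_self_pos (h.hρ.1.sub h.hσ.1) (sub_ne_zero.2 h.ne)

lemma D_eq (ρ σ : M2) : D ρ σ = tr ρ ρ + tr σ σ - 2 * tr ρ σ := by
  unfold D
  rw [tr_sub_left, tr_sub_right, tr_sub_right, tr_comm σ ρ]
  ring

lemma mu_eq (h : Data ρ σ) : mu ρ σ * D ρ σ = tr σ σ - tr ρ σ := by
  unfold mu
  rw [show tr (ρ - σ) (ρ - σ) = D ρ σ from rfl, div_mul_cancel₀ _ h.D_pos.ne']

lemma omega_herm (h : Data ρ σ) : (omega ρ σ).IsHermitian := by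
  unfold omega Matrix.IsHermitian
  rw [conjTranspose_add, conjTranspose_smul, conjTranspose_smul, h.hρ.1, h.hσ.1]
  simp

lemma omega_trace (h : Data ρ σ) : (omega ρ σ).trace = 1 := by
  unfold omega
  rw [trace_add, trace_smul, trace_smul, h.tρ, h.tσ]
  simp

lemma tr_rho_omega (ρ σ : M2) :
    tr ρ (omega ρ σ) = mu ρ σ * tr ρ ρ + (1 - mu ρ σ) * tr ρ σ := by
  unfold omega; rw [tr_add_right, tr_smul_right, tr_smul_right]

lemma tr_sigma_omega (ρ σ : M2) :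
    tr σ (omega ρ σ) = mu ρ σ * tr ρ σ + (1 - mu ρ σ) * tr σ σ := by
  unfold omega; rw [tr_add_right, tr_smul_right, tr_smul_right, tr_comm σ ρ]

lemma tr_omega_D (h : Data ρ σ) : tr (omega ρ σ) (omega ρ σ) * D ρ σ =
    tr ρ ρ * tr σ σ - tr ρ σ ^ 2 := by
  have h1 : tr (omega ρ σ) (omega ρ σ) =
      mu ρ σ * tr ρ (omega ρ σ) + (1 - mu ρ σ) * tr σ (omega ρ σ) := by
    conv_lhs => rw [show omega ρ σ = ((mu ρ σ : ℝ) : ℂ) • ρ + ((1 - mu ρ σ : ℝ) : ℂ) • σ from rfl,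
      tr_add_left, tr_smul_left, tr_smul_left]
    rfl
  rw [h1, tr_rho_omega, tr_sigma_omega]
  have h2 := h.mu_eq
  have h3 := D_eq ρ σ
  have h4 : (1 - mu ρ σ) * D ρ σ = tr ρ ρ - tr ρ σ := by linear_combination h3 - h2
  linear_combination (mu ρ σ * tr ρ ρ + (1 - mu ρ σ) * tr ρ σ) * h2 +
    (mu ρ σ * tr ρ σ + (1 - mu ρ σ) * tr σ σ) * h4

lemma rho_omega (h : Data ρ σ) : tr ρ (omega ρ σ) = tr (omega ρ σ) (omega ρ σ) := by
  have hD := h.D_pos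
  refine mul_right_cancel₀ hD.ne' ?_
  rw [h.tr_omega_D, tr_rho_omega]
  have h2 := h.mu_eq
  have h3 := D_eq ρ σ
  linear_combination (tr ρ ρ - tr ρ σ) * h2 + tr ρ σ * h3

lemma sigma_omega (h : Data ρ σ) : tr σ (omega ρ σ) = tr (omega ρ σ) (omega ρ σ) := by
  have hD := h.D_pos
  refine mul_right_cancel₀ hD.ne' ?_
  rw [h.tr_omega_D, tr_sigma_omega]
  have h2 := h.mu_eq
  have h3 := D_eq ρ σ
  linear_combination (tr ρ σ - tr σ σ) * h2 + tr σ σ * h3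

lemma rho_diff (h : Data ρ σ) : tr ρ (ρ - σ) = (1 - mu ρ σ) * D ρ σ := by
  rw [tr_sub_right, sub_mul, one_mul, h.mu_eq, D_eq]; ring

lemma sigma_diff (h : Data ρ σ) : tr σ (ρ - σ) = -(mu ρ σ * D ρ σ) := by
  rw [tr_sub_right, h.mu_eq, tr_comm σ ρ]; ring

lemma W_nonneg (h : Data ρ σ) : 0 ≤ W ρ σ := by
  have := half_le_tr h.omega_herm h.omega_trace
  unfold W; linarith

lemma W_alpha (h : Data ρ σ) : W ρ σ + (1 - mu ρ σ) ^ 2 * (2 * D ρ σ) ≤ 1 := by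
  have hD := h.D_pos
  have key : W ρ σ + (1 - mu ρ σ) ^ 2 * (2 * D ρ σ) = 2 * tr ρ ρ - 1 := by
    unfold W
    refine mul_right_cancel₀ hD.ne' ?_
    have h1 := h.tr_omega_D
    have h2 := h.mu_eq
    have h3 := D_eq ρ σ
    have h4 : (1 - mu ρ σ) * D ρ σ = tr ρ ρ - tr ρ σ := by rw [sub_mul, one_mul, h2, h3]; ring
    linear_combination 2 * h1 + 2 * ((1 - mu ρ σ) * D ρ σ + (tr ρ ρ - tr ρ σ)) * h4 -
      2 * tr ρ ρ * h3
  rw [key]
  have := tr_le_one h.hρ h.tρ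
  linarith

lemma W_beta (h : Data ρ σ) : W ρ σ + mu ρ σ ^ 2 * (2 * D ρ σ) ≤ 1 := by
  have hD := h.D_pos
  have key : W ρ σ + mu ρ σ ^ 2 * (2 * D ρ σ) = 2 * tr σ σ - 1 := by
    unfold W
    refine mul_right_cancel₀ hD.ne' ?_
    have h1 := h.tr_omega_D
    have h2 := h.mu_eq
    have h3 := D_eq ρ σ
    linear_combination 2 * h1 + 2 * (mu ρ σ * D ρ σ + (tr σ σ - tr ρ σ)) * h2 -
      2 * tr σ σ * h3
  rw [key]
  have := tr_le_one h.hσ h.tσ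
  linarith

lemma W_lt_one (h : Data ρ σ) : W ρ σ < 1 := by
  have hD := h.D_pos
  by_contra hcon
  push Not at hcon
  have h1 := h.W_alpha
  have h2 := h.W_beta
  have h3 : (1 - mu ρ σ) ^ 2 * (2 * D ρ σ) ≤ 0 := by linarith
  have h4 : mu ρ σ ^ 2 * (2 * D ρ σ) ≤ 0 := by linarith
  have h5 : (1 - mu ρ σ) ^ 2 ≤ 0 := by
    by_contra hh; push Not at hh
    have := mul_pos hh (by linarith : 0 < 2 * D ρ σ)
    linarith
  have h6 : mu ρ σ ^ 2 ≤ 0 := by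
    by_contra hh; push Not at hh
    have := mul_pos hh (by linarith : 0 < 2 * D ρ σ)
    linarith
  nlinarith

lemma radicand (h : Data ρ σ) :
    tr (ρ - σ) (ρ - σ) - tr ρ ρ * tr σ σ + tr ρ σ ^ 2 = D ρ σ * (1 - W ρ σ) / 2 := by
  have h1 := h.tr_omega_D
  unfold W
  rw [show tr (ρ - σ) (ρ - σ) = D ρ σ from rfl]
  linear_combination h1

/-- the traceless part of the Helstrom matrix -/
noncomputable def N (ρ σ : M2) (l : ℝ) : M2 := Hel ρ σ l - ((l / 2 : ℝ) : ℂ) • (1 : M2)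

lemma Hel_herm (h : Data ρ σ) (l : ℝ) : (Hel ρ σ l).IsHermitian := by
  unfold Hel Matrix.IsHermitian
  rw [conjTranspose_sub, conjTranspose_smul, conjTranspose_sub, h.hρ.1, h.hσ.1, h.omega_herm]
  simp

lemma Hel_trace (h : Data ρ σ) (l : ℝ) : (Hel ρ σ l).trace = l := by
  unfold Hel
  rw [trace_sub, trace_smul, trace_sub, h.omega_trace, h.tρ, h.tσ]
  simp

lemma N_herm (h : Data ρ σ) (l : ℝ) : (N ρ σ l).IsHermitian := by
  unfold N Matrix.IsHermitian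
  rw [conjTranspose_sub, conjTranspose_smul, h.Hel_herm l, conjTranspose_one]
  simp

lemma N_trace (h : Data ρ σ) (l : ℝ) : (N ρ σ l).trace = 0 := by
  unfold N
  rw [trace_sub, trace_smul, h.Hel_trace, trace_one]
  simp

lemma tr_N_left (l : ℝ) (A : M2) :
    tr A (N ρ σ l) = l * tr A (omega ρ σ) - tr A (ρ - σ) - l / 2 * A.trace.re := by
  unfold N Hel
  rw [tr_sub_right, tr_smul_right, tr_one, tr_sub_right, tr_smul_right]

lemma rho_N (h : Data ρ σ) (l : ℝ) :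
    tr ρ (N ρ σ l) = (l * W ρ σ - (1 - mu ρ σ) * (2 * D ρ σ)) / 2 := by
  rw [tr_N_left, h.rho_omega, h.rho_diff, h.tρ]
  unfold W
  simp
  ring

lemma sigma_N (h : Data ρ σ) (l : ℝ) :
    tr σ (N ρ σ l) = (l * W ρ σ + mu ρ σ * (2 * D ρ σ)) / 2 := by
  rw [tr_N_left, h.sigma_omega, h.sigma_diff, h.tσ]
  unfold W
  simp
  ring

lemma N_N (h : Data ρ σ) (l : ℝ) :
    tr (N ρ σ l) (N ρ σ l) = (l ^ 2 * W ρ σ + 2 * D ρ σ) / 2 := by
  rw [tr_N_left, tr_comm, tr_N_left, h.N_trace, tr_comm (N ρ σ l), tr_N_left]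
  have e1 : tr (omega ρ σ) (ρ - σ) = 0 := by
    rw [tr_comm, tr_sub_left, h.rho_omega, h.sigma_omega, sub_self]
  have e2 : tr (ρ - σ) (omega ρ σ) = 0 := by rw [tr_comm]; exact e1
  have e3 : (ρ - σ).trace = 0 := by rw [trace_sub, h.tρ, h.tσ, sub_self]
  rw [e1, e2, e3, h.omega_trace, show tr (ρ - σ) (ρ - σ) = D ρ σ from rfl]
  unfold W
  simp
  ring

end Data

end Pool.Agent.Q233.MI
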