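import Pool.Agent.Q233.MI.Core

set_option autoImplicit false

open Filter Topology Set

namespace Pool.Agent.Q233.MI

noncomputable def T (u : ℝ) : ℝ := u * Real.log u

/-- `- h((1 + u) / 2)`, `h` the binary entropy -/
noncomputable def eta (u : ℝ) : ℝ := T ((1 + u) / 2) + T ((1 - u) / 2)

lemma hasDerivAt_T {u : ℝ} (hu : u ≠ 0) : HasDerivAt T (Real.log u + 1) u :=
  Real.hasDerivAt_mul_log hu

lemma eta_neg (u : ℝ) : eta (-u) = eta u := by
  unfold eta
  rw [add_comm, show (1 - -u) = 1 + u by ring, show (1 + -u) = 1 - u by ring]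

lemma hasDerivAt_eta {u : ℝ} (h1 : -1 < u) (h2 : u < 1) : HasDerivAt eta (At u) u := by
  have a1 : HasDerivAt (fun u : ℝ => (1 + u) / 2) (1 / 2) u :=
    ((hasDerivAt_id u).const_add 1).div_const 2
  have a2 : HasDerivAt (fun u : ℝ => (1 - u) / 2) (-1 / 2) u :=
    ((hasDerivAt_id u).const_sub 1).div_const 2
  have n1 : (1 + u) / 2 ≠ 0 := by
    have : 0 < (1 + u) / 2 := by linarith
    exact this.ne'
  have n2 : (1 - u) / 2 ≠ 0 := by
    have : 0 < (1 - u) / 2 := by linarith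
    exact this.ne'
  have b1 := (hasDerivAt_T n1).comp u a1
  have b2 := (hasDerivAt_T n2).comp u a2
  refine (b1.add b2).congr_deriv ?_
  unfold At
  have m1 : (1 + u : ℝ) ≠ 0 := by linarith
  have m2 : (1 - u : ℝ) ≠ 0 := (show (0 : ℝ) < 1 - u by linarith).ne'
  rw [Real.log_div m1 m2, Real.log_div m1 (by norm_num), Real.log_div m2 (by norm_num)]
  ring

lemma hasDerivAt_At {u : ℝ} (h1 : -1 < u) (h2 : u < 1) :
    HasDerivAt At (1 / (1 - u ^ 2)) u := by
  have n1 : 0 < 1 + u := by linarith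
  have n2 : 0 < 1 - u := by linarith
  have a1 : HasDerivAt (fun u : ℝ => (1 + u) / (1 - u))
      ((1 * (1 - u) - (1 + u) * (-1)) / (1 - u) ^ 2) u :=
    ((hasDerivAt_id u).const_add 1).div ((hasDerivAt_id u).const_sub 1) n2.ne'
  have a2 := (a1.log (div_pos n1 n2).ne').div_const 2
  refine a2.congr_deriv ?_
  have n3 : 1 - u ^ 2 ≠ 0 := by
    have : 0 < (1 + u) * (1 - u) := mul_pos n1 n2
    nlinarith
  field_simp
  ring

/-! ### the curve -/

noncomputable def X (c α θ : ℝ) : ℝ := c * Real.sin θ - α * Real.cos θ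

noncomputable def X1 (c α θ : ℝ) : ℝ := c * Real.cos θ + α * Real.sin θ

lemma hasDerivAt_X (c α θ : ℝ) : HasDerivAt (X c α) (X1 c α θ) θ := by
  refine (((Real.hasDerivAt_sin θ).const_mul c).sub
    ((Real.hasDerivAt_cos θ).const_mul α)).congr_deriv ?_
  unfold X1; ring

lemma hasDerivAt_X1 (c α θ : ℝ) : HasDerivAt (X1 c α) (-X c α θ) θ := by
  refine (((Real.hasDerivAt_cos θ).const_mul c).add
    ((Real.hasDerivAt_sin θ).const_mul α)).congr_deriv ?_
  unfold X; ring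

lemma X_sq (c α θ : ℝ) : X c α θ ^ 2 + X1 c α θ ^ 2 = c ^ 2 + α ^ 2 := by
  unfold X X1
  linear_combination (c ^ 2 + α ^ 2) * Real.sin_sq_add_cos_sq θ

lemma X_rec (c α θ : ℝ) : Real.sin θ * X c α θ + Real.cos θ * X1 c α θ = c := by
  unfold X X1
  linear_combination c * Real.sin_sq_add_cos_sq θ

lemma X_shift (c α θ τ : ℝ) :
    X c α τ = X c α θ * Real.cos (τ - θ) + X1 c α θ * Real.sin (τ - θ) := by
  unfold X X1
  rw [Real.cos_sub, Real.sin_sub]
  linear_combination (-(c * Real.sin τ - α * Real.cos τ)) * Real.sin_sq_add_cos_sq θ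

lemma hasDerivAt_mul_zero {g k : ℝ → ℝ} {g' : ℝ} (hg : HasDerivAt g g' 0) (hg0 : g 0 = 0)
    (hk : ContinuousAt k 0) : HasDerivAt (fun h => g h * k h) (g' * k 0) 0 := by
  rw [hasDerivAt_iff_tendsto_slope] at hg ⊢
  have h1 : Tendsto (fun h => slope g 0 h * k h) (𝓝[≠] 0) (𝓝 (g' * k 0)) :=
    hg.mul (hk.tendsto.mono_left nhdsWithin_le_nhds)
  refine h1.congr fun h => ?_
  simp only [slope_def_field, hg0]
  ring

lemma hasDerivAt_eta_cos : HasDerivAt (fun h => eta (Real.cos h)) 0 0 := by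
  have e : (fun h => eta (Real.cos h)) = fun h =>
      T ((1 + Real.cos h) / 2) + 2 * (Real.sin (h / 2) *
        (Real.sin (h / 2) * Real.log (Real.sin (h / 2)))) := by
    ext h
    unfold eta
    congr 1
    have : (1 - Real.cos h) / 2 = Real.sin (h / 2) ^ 2 := by
      have h1 := Real.cos_sq' (h / 2)
      have h2 := Real.cos_two_mul (h / 2)
      rw [mul_div_cancel₀ h (two_ne_zero' ℝ)] at h2
      linarith
    rw [this]
    unfold T
    rw [Real.log_pow]
    push_cast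
    ring
  rw [e]
  have a1 : HasDerivAt (fun h : ℝ => (1 + Real.cos h) / 2) (-Real.sin 0 / 2) 0 :=
    ((Real.hasDerivAt_cos 0).const_add 1).div_const 2
  have a2 : HasDerivAt (fun h => T ((1 + Real.cos h) / 2)) 0 0 := by
    have h1 : HasDerivAt T (Real.log ((1 + Real.cos 0) / 2) + 1) ((1 + Real.cos 0) / 2) :=
      hasDerivAt_T (by norm_num)
    refine (h1.comp 0 a1).congr_deriv ?_
    simp
  have a3 : HasDerivAt (fun h : ℝ => Real.sin (h / 2)) (Real.cos (0 / 2) * (1 / 2)) 0 :=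
    ((hasDerivAt_id (0 : ℝ)).div_const 2).sin
  have a4 : ContinuousAt (fun h : ℝ => Real.sin (h / 2) * Real.log (Real.sin (h / 2))) 0 := by
    have : Continuous fun h : ℝ => Real.sin (h / 2) * Real.log (Real.sin (h / 2)) :=
      Real.continuous_mul_log.comp (Real.continuous_sin.comp (continuous_id.div_const 2))
    exact this.continuousAt
  have a5 := (hasDerivAt_mul_zero a3 (by simp) a4).const_mul 2
  refine (a2.add a5).congr_deriv ?_
  simp

lemma hasDerivAt_eta_X {c α : ℝ} (h : c ^ 2 + α ^ 2 ≤ 1) (θ : ℝ) :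
    HasDerivAt (fun θ => eta (X c α θ)) (X1 c α θ * At (X c α θ)) θ := by
  have hsq := X_sq c α θ
  by_cases h1 : X c α θ ^ 2 = 1
  · have h2 : X1 c α θ = 0 := by
      have := sq_nonneg (X1 c α θ)
      have h3 : X1 c α θ ^ 2 = 0 := by linarith
      exact pow_eq_zero_iff (two_ne_zero) |>.1 h3
    have h4 : ∀ τ, eta (X c α τ) = eta (Real.cos (τ - θ)) := by
      intro τ
      rw [X_shift c α θ τ, h2, zero_mul, add_zero]
      have h6 : (X c α θ - 1) * (X c α θ + 1) = 0 := by linear_combination h1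
      rcases mul_eq_zero.1 h6 with h5 | h5
      · rw [show X c α θ = 1 by linarith, one_mul]
      · rw [show X c α θ = -1 by linarith, neg_one_mul, eta_neg]
    rw [funext h4, h2, zero_mul]
    have h5 : HasDerivAt (fun τ : ℝ => τ - θ) 1 θ := (hasDerivAt_id θ).sub_const θ
    have h6 : HasDerivAt (fun h => eta (Real.cos h)) 0 (θ - θ) := by
      rw [sub_self]; exact hasDerivAt_eta_cos
    refine (HasDerivAt.comp (h := fun τ : ℝ => τ - θ) θ h6 h5).congr_deriv ?_
    simp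
  · have h2 : X c α θ ^ 2 < 1 := lt_of_le_of_ne (by nlinarith [sq_nonneg (X1 c α θ)]) h1
    have h3 := abs_lt.1 ((sq_lt_one_iff_abs_lt_one _).1 h2)
    refine ((hasDerivAt_eta h3.1 h3.2).comp θ (hasDerivAt_X c α θ)).congr_deriv ?_
    ring

lemma sign_near {G : ℝ → ℝ} {d c : ℝ} (h : HasDerivAt G d c) (hc : G c = 0) (hd : d < 0) :
    ∃ ε > 0, (∀ t, c < t → t < c + ε → G t < 0) ∧ ∀ t, c - ε < t → t < c → 0 < G t := by
  rw [hasDerivAt_iff_tendsto_slope] at h
  have h1 : ∀ᶠ t in 𝓝[≠] c, slope G c t < 0 := h.eventually (eventually_lt_nhds hd)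
  rw [eventually_nhdsWithin_iff, Metric.eventually_nhds_iff] at h1
  obtain ⟨ε, hε, h2⟩ := h1
  refine ⟨ε, hε, fun t ht1 ht2 => ?_, fun t ht1 ht2 => ?_⟩
  · have h3 := h2 (y := t) (by rw [Real.dist_eq, abs_lt]; constructor <;> linarith) ht1.ne'
    rw [slope_def_field, hc, sub_zero] at h3
    by_contra h4
    push Not at h4
    exact absurd h3 (not_lt.2 (div_nonneg h4 (by linarith)))
  · have h3 := h2 (y := t) (by rw [Real.dist_eq, abs_lt]; constructor <;> linarith) ht2.ne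
    rw [slope_def_field, hc, sub_zero] at h3
    by_contra h4
    push Not at h4
    exact absurd h3 (not_lt.2 (div_nonneg_of_nonpos h4 (by linarith)))

lemma neg_of_crit {G : ℝ → ℝ} {a b : ℝ}
    (hG : ∀ θ, a ≤ θ → θ < b → ∃ d, HasDerivAt G d θ ∧ (G θ = 0 → d < 0)) (h0 : G a ≤ 0) :
    ∀ θ, a < θ → θ < b → G θ < 0 := by
  intro y ha hb
  by_contra hy
  push Not at hy
  obtain ⟨y', hy1, hy2, hy3⟩ : ∃ y', a < y' ∧ y' < b ∧ 0 < G y' := by
    rcases hy.eq_or_lt with h | h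
    · obtain ⟨d, hd1, hd2⟩ := hG y ha.le hb
      obtain ⟨ε, hε, _, h2⟩ := sign_near hd1 h.symm (hd2 h.symm)
      refine ⟨max (y - ε / 2) ((a + y) / 2), lt_max_of_lt_right (by linarith),
        max_lt (by linarith) (by linarith), h2 _ (lt_max_of_lt_left (by linarith))
        (max_lt (by linarith) (by linarith))⟩
    · exact ⟨y, ha, hb, h⟩
  have hcont : ContinuousOn G (Icc a y') := fun t ht => by
    obtain ⟨d, hd, _⟩ := hG t ht.1 (lt_of_le_of_lt ht.2 hy2)
    exact hd.continuousAt.continuousWithinAt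
  obtain ⟨S, hS⟩ : ∃ S, S = {t | t ∈ Icc a y' ∧ G t ≤ 0} := ⟨_, rfl⟩
  have hSc : IsClosed S := by
    rw [hS]
    exact hcont.preimage_isClosed_of_isClosed isClosed_Icc isClosed_Iic
  have hSn : S.Nonempty := ⟨a, by rw [hS]; exact ⟨⟨le_rfl, hy1.le⟩, h0⟩⟩
  have hSb : BddAbove S := ⟨y', fun t ht => by rw [hS] at ht; exact ht.1.2⟩
  have hc := hSc.csSup_mem hSn hSb
  obtain ⟨c, hcdef⟩ : ∃ c, c = sSup S := ⟨_, rfl⟩
  rw [← hcdef] at hc
  have hup : ∀ t, t ∈ S → t ≤ c := fun t ht => by rw [hcdef]; exact le_csSup hSb ht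
  rw [hS] at hc
  obtain ⟨⟨hc1, hc2⟩, hc3⟩ := hc
  have hcy : c < y' := lt_of_le_of_ne hc2 fun h => by rw [h] at hc3; linarith
  obtain ⟨d, hd1, hd2⟩ := hG c hc1 (by linarith)
  obtain ⟨ε, hε, h5⟩ : ∃ ε > 0, ∀ t, c < t → t < c + ε → G t < 0 := by
    rcases hc3.eq_or_lt with h | h
    · obtain ⟨ε, hε, h1, _⟩ := sign_near hd1 h (hd2 h)
      exact ⟨ε, hε, h1⟩
    · have h6 : ∀ᶠ t in 𝓝 c, G t < 0 := hd1.continuousAt.eventually_lt_const h
      rw [Metric.eventually_nhds_iff] at h6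
      obtain ⟨ε, hε, h7⟩ := h6
      exact ⟨ε, hε, fun t h8 h9 => h7 (by rw [Real.dist_eq, abs_lt]; constructor <;> linarith)⟩
  obtain ⟨t, ht⟩ : ∃ t, t = min (c + ε / 2) ((c + y') / 2) := ⟨_, rfl⟩
  have ht1 : c < t := by rw [ht]; exact lt_min (by linarith) (by linarith)
  have ht2 : t < c + ε := by
    rw [ht]; exact lt_of_le_of_lt (min_le_left _ _) (by linarith)
  have ht3 : t ≤ y' := by
    rw [ht]; exact le_trans (min_le_right _ _) (by linarith)
  have := hup t (by rw [hS]; exact ⟨⟨by linarith, ht3⟩, (h5 t ht1 ht2).le⟩)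
  linarith

lemma anti_right {J G : ℝ → ℝ} {a b : ℝ} (hJ : ∀ θ, a ≤ θ → θ ≤ b → HasDerivAt J (G θ) θ)
    (hG : ∀ θ, a ≤ θ → θ < b → ∃ d, HasDerivAt G d θ ∧ (G θ = 0 → d < 0)) (h0 : G a ≤ 0) :
    ∀ θ, a ≤ θ → θ ≤ b → J θ ≤ J a := by
  intro θ h1 h2
  have key : AntitoneOn J (Icc a b) := by
    refine antitoneOn_of_deriv_nonpos (convex_Icc a b)
      (fun x hx => (hJ x hx.1 hx.2).continuousAt.continuousWithinAt)
      (fun x hx => ?_) fun x hx => ?_
    · rw [interior_Icc] at hx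
      exact (hJ x hx.1.le hx.2.le).differentiableAt.differentiableWithinAt
    · rw [interior_Icc] at hx
      rw [(hJ x hx.1.le hx.2.le).deriv]
      exact (neg_of_crit hG h0 x hx.1 hx.2).le
  exact key ⟨le_rfl, h1.trans h2⟩ ⟨h1, h2⟩ h1

end Pool.Agent.Q233.MI
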